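import Mathlib

/-!
# Block codes with two variants

`W` is obtained from a base word `u` by replacing each letter `c` by a block of length `L`
which, on the `q`-th segment of the block, follows the word `v false` or the word `v true`
depending on whether the letter `c` belongs to the `q`-th class.  Over the `q`-th segment the
two words have Parikh vectors which differ by `M` times a step `a q`.
We show: a stage condition on the base word and a finite condition modulo `M` on the
two words imply that the block word has no abelian square of period at least two.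
-/

namespace Makela

/-- First coordinate of a letter: `0 ↦ 0`, `1 ↦ 1`, `2 ↦ 1`. -/
def fX (a : ℕ) : ℤ := if a = 0 then 0 else 1

/-- Second coordinate of a letter: `0 ↦ 0`, `1 ↦ 0`, `2 ↦ 1`. -/
def fY (a : ℕ) : ℤ := if a = 2 then 1 else 0

/-- `0` or `1`. -/
def bz (b : Bool) : ℤ := if b then 1 else 0

/-- Prefix sums of `f` along the periodic word with period `v b 0, ..., v b (L-1)`. -/
def Pf (f : ℕ → ℤ) (L : ℕ) (v : Bool → ℕ → ℕ) (b : Bool) (s : ℕ) : ℤ :=
  ∑ k ∈ Finset.range s, f (v b (k % L))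

/-- Second difference with variants. -/
def Vf (f : ℕ → ℤ) (L : ℕ) (v : Bool → ℕ → ℕ) (b₁ b₂ b₃ : Bool) (e r : ℕ) : ℤ :=
  Pf f L v b₁ (L + r - e) + Pf f L v b₃ (L + r + e) - 2 * Pf f L v b₂ (L + r)

/-- The displacement of the letter `c` after the first `q` segments. -/
def dsp (mem : ℕ → ℕ → Bool) (a : ℕ → ℤ) (q c : ℕ) : ℤ :=
  ∑ p ∈ Finset.range q, bz (mem p c) * a p

/-- The walk of the base word. -/
def Gf (u : ℕ → ℕ) (mem : ℕ → ℕ → Bool) (a : ℕ → ℤ) (n : ℕ) : ℤ :=
  ∑ i ∈ Finset.range n, dsp mem a 4 (u i)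

/-- The stage value. -/
def Zf (u : ℕ → ℕ) (mem : ℕ → ℕ → Bool) (a : ℕ → ℤ) (q n m : ℕ) : ℤ :=
  (Gf u mem a (n + m) - 2 * Gf u mem a n + Gf u mem a (n - m))
    + (dsp mem a q (u (n + m)) - 2 * dsp mem a q (u n) + dsp mem a q (u (n - m)))

/-- The block word. -/
def Wd (u : ℕ → ℕ) (L : ℕ) (v : Bool → ℕ → ℕ) (seg : ℕ → ℕ) (mem : ℕ → ℕ → Bool) (k : ℕ) : ℕ :=
  v (mem (seg (k % L)) (u (k / L))) (k % L)

/-- Difference of the two words in segment `q` before place `r`. -/
def Dq (f : ℕ → ℤ) (v : Bool → ℕ → ℕ) (seg : ℕ → ℕ) (q r : ℕ) : ℤ :=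
  ∑ k ∈ Finset.range r, if seg k = q then f (v true k) - f (v false k) else 0

section

variable (f : ℕ → ℤ) (u : ℕ → ℕ) (L M : ℕ) (v : Bool → ℕ → ℕ) (seg : ℕ → ℕ)
  (mem : ℕ → ℕ → Bool) (a : ℕ → ℤ)

/-- Prefix sums along the block word. -/
def Ff (y : ℕ) : ℤ := ∑ k ∈ Finset.range y, f (Wd u L v seg mem k)

lemma seg_mono (hseg : ∀ r, r + 1 < L → seg r ≤ seg (r + 1)) (r r' : ℕ) (h : r ≤ r')
    (hr : r' < L) : seg r ≤ seg r' := by
  induction r', h using Nat.le_induction with
  | base => exact le_rfl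
  | succ n hn ih => exact le_trans (ih (by omega)) (hseg n (by omega))

lemma Dq_eq_zero (hseg : ∀ r, r + 1 < L → seg r ≤ seg (r + 1)) (q r : ℕ) (hr : r < L)
    (hq : seg r < q) : Dq f v seg q r = 0 := by
  unfold Dq
  apply Finset.sum_eq_zero
  intro k hk
  rw [Finset.mem_range] at hk
  have := seg_mono L seg hseg k r (by omega) hr
  rw [if_neg (by omega)]

lemma Dq_eq_full (hseg : ∀ r, r + 1 < L → seg r ≤ seg (r + 1)) (q r : ℕ) (hr : r < L)
    (hq : q < seg r) : Dq f v seg q r = Dq f v seg q L := by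
  unfold Dq
  rw [← Finset.sum_range_add_sum_Ico _ hr.le]
  rw [Finset.sum_eq_zero (s := Finset.Ico r L), add_zero]
  intro k hk
  rw [Finset.mem_Ico] at hk
  have := seg_mono L seg hseg r k (by omega) (by omega)
  rw [if_neg (by omega)]

/-- Prefix sum inside a block. -/
lemma block_sum (hseg4 : ∀ r < L, seg r < 4) (c r : ℕ) (hr : r ≤ L) :
    ∑ k ∈ Finset.range r, f (v (mem (seg k) c) k)
      = ∑ k ∈ Finset.range r, f (v false k)
        + ∑ q ∈ Finset.range 4, bz (mem q c) * Dq f v seg q r := by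
  unfold Dq
  have h1 : ∀ k ∈ Finset.range r, f (v (mem (seg k) c) k) = f (v false k)
      + ∑ q ∈ Finset.range 4,
        (if seg k = q then bz (mem q c) * (f (v true k) - f (v false k)) else 0) := by
    intro k hk
    rw [Finset.mem_range] at hk
    rw [Finset.sum_ite_eq, if_pos (Finset.mem_range.2 (hseg4 k (by omega)))]
    cases h : mem (seg k) c <;> simp [bz]
  rw [Finset.sum_congr rfl h1, Finset.sum_add_distrib, Finset.sum_comm]
  congr 1
  apply Finset.sum_congr rfl
  intro q _
  rw [Finset.mul_sum]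
  apply Finset.sum_congr rfl
  intro k _
  split_ifs <;> ring

lemma Ff_block (hL : 0 < L) (n r : ℕ) (hr : r ≤ L) :
    Ff f u L v seg mem (n * L + r) = Ff f u L v seg mem (n * L)
      + ∑ k ∈ Finset.range r, f (v (mem (seg k) (u n)) k) := by
  unfold Ff
  rw [Finset.sum_range_add]
  congr 1
  apply Finset.sum_congr rfl
  intro k hk
  rw [Finset.mem_range] at hk
  unfold Wd
  have h1 : (n * L + k) % L = k := by
    rw [Nat.add_comm, Nat.add_mul_mod_self_right, Nat.mod_eq_of_lt (by omega)]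
  have h2 : (n * L + k) / L = n := by
    rw [Nat.add_comm, Nat.add_mul_div_right _ _ hL, Nat.div_eq_of_lt (by omega), Nat.zero_add]
  rw [h1, h2]

lemma Pf_low (b : Bool) (r : ℕ) (hr : r ≤ L) :
    Pf f L v b r = ∑ k ∈ Finset.range r, f (v b k) := by
  unfold Pf
  apply Finset.sum_congr rfl
  intro k hk
  rw [Finset.mem_range] at hk
  rw [Nat.mod_eq_of_lt (by omega)]

/-- The exact value of the prefix sums along the block word. -/
lemma Ff_eq (hL : 0 < L) (hseg4 : ∀ r < L, seg r < 4)
    (hcnt : ∀ q < 4, Dq f v seg q L = M * a q) (n r : ℕ) (hr : r ≤ L) :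
    Ff f u L v seg mem (n * L + r) = n * Pf f L v false L + M * Gf u mem a n
      + Pf f L v false r + ∑ q ∈ Finset.range 4, bz (mem q (u n)) * Dq f v seg q r := by
  have key : ∀ n : ℕ, Ff f u L v seg mem (n * L) = n * Pf f L v false L + M * Gf u mem a n := by
    intro n
    induction n with
    | zero => simp [Ff, Gf]
    | succ n ih =>
      have : (n + 1) * L = n * L + L := by ring
      rw [this, Ff_block f u L v seg mem hL n L le_rfl, ih,
        block_sum f L v seg mem hseg4 (u n) L le_rfl, ← Pf_low f L v false L le_rfl]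
      have h2 : ∑ q ∈ Finset.range 4, bz (mem q (u n)) * Dq f v seg q L
          = M * dsp mem a 4 (u n) := by
        unfold dsp
        rw [Finset.mul_sum]
        apply Finset.sum_congr rfl
        intro q hq
        rw [Finset.mem_range] at hq
        rw [hcnt q hq]
        ring
      rw [h2]
      unfold Gf
      rw [Finset.sum_range_succ]
      push_cast
      ring
  rw [Ff_block f u L v seg mem hL n r hr, key n,
    block_sum f L v seg mem hseg4 (u n) r hr, ← Pf_low f L v false r hr]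
  ring

/-- The synchronous second difference. -/
lemma sync_value (hL : 0 < L) (hseg4 : ∀ r < L, seg r < 4)
    (hseg : ∀ r, r + 1 < L → seg r ≤ seg (r + 1))
    (hcnt : ∀ q < 4, Dq f v seg q L = M * a q) (n m r : ℕ) (hmn : m ≤ n) (hr : r < L) :
    Ff f u L v seg mem ((n + m) * L + r) + Ff f u L v seg mem ((n - m) * L + r)
        - 2 * Ff f u L v seg mem (n * L + r)
      = M * Zf u mem a (seg r) n m + Dq f v seg (seg r) r
        * (bz (mem (seg r) (u (n + m))) - 2 * bz (mem (seg r) (u n))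
          + bz (mem (seg r) (u (n - m)))) := by
  rw [Ff_eq f u L M v seg mem a hL hseg4 hcnt _ r hr.le,
    Ff_eq f u L M v seg mem a hL hseg4 hcnt _ r hr.le,
    Ff_eq f u L M v seg mem a hL hseg4 hcnt _ r hr.le]
  have h4 : ∀ c : ℕ, ∑ q ∈ Finset.range 4, bz (mem q c) * Dq f v seg q r
      = M * dsp mem a (seg r) c + bz (mem (seg r) c) * Dq f v seg (seg r) r := by
    intro c
    have hs := hseg4 r hr
    have hsplit : Finset.range 4 = Finset.range (seg r) ∪ Finset.Ico (seg r) 4 := by
      ext x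
      simp only [Finset.mem_union, Finset.mem_range, Finset.mem_Ico]
      omega
    have hdisj : Disjoint (Finset.range (seg r)) (Finset.Ico (seg r) 4) := by
      rw [Finset.disjoint_left]
      intro x hx hx'
      rw [Finset.mem_range] at hx
      rw [Finset.mem_Ico] at hx'
      omega
    rw [hsplit, Finset.sum_union hdisj, ← Finset.sum_Ico_consecutive _ (Nat.le_succ (seg r)) hs]
    rw [Finset.sum_eq_zero (s := Finset.Ico (seg r + 1) 4), add_zero, Finset.sum_Ico_eq_sum_range]
    · simp only [Nat.succ_eq_add_one, Nat.add_sub_cancel_left, Finset.sum_range_one, add_zero]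
      congr 1
      unfold dsp
      rw [Finset.mul_sum]
      apply Finset.sum_congr rfl
      intro q hq
      rw [Finset.mem_range] at hq
      rw [Dq_eq_full f L v seg hseg q r hr hq, hcnt q (by omega)]
      ring
    · intro q hq
      rw [Finset.mem_Ico] at hq
      rw [Dq_eq_zero f L v seg hseg q r hr (by omega), mul_zero]
  rw [h4, h4, h4]
  unfold Zf
  push_cast [Nat.cast_sub hmn]
  ring

/-- Modulo `M` only the current segment matters. -/
lemma sum_seg_mod (hseg4 : ∀ r < L, seg r < 4)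
    (hseg : ∀ r, r + 1 < L → seg r ≤ seg (r + 1))
    (hcnt : ∀ q < 4, Dq f v seg q L = M * a q) (m : ℕ → Bool) (r : ℕ) (hr : r < L) :
    (M : ℤ) ∣ ∑ q ∈ Finset.range 4, bz (m q) * Dq f v seg q r
      - bz (m (seg r)) * Dq f v seg (seg r) r := by
  have hs := hseg4 r hr
  rw [← Finset.add_sum_erase _ _ (Finset.mem_range.2 hs), add_sub_cancel_left]
  apply Finset.dvd_sum
  intro q hq
  rw [Finset.mem_erase, Finset.mem_range] at hq
  rcases lt_or_gt_of_ne hq.1 with h | h
  · rw [Dq_eq_full f L v seg hseg q r hr h, hcnt q hq.2]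
    exact ⟨bz (m q) * a q, by ring⟩
  · rw [Dq_eq_zero f L v seg hseg q r hr h, mul_zero]
    exact dvd_zero _

lemma Pf_add (b : Bool) (k r : ℕ) :
    Pf f L v b (k * L + r) = k * Pf f L v b L + Pf f L v b r := by
  induction k with
  | zero => simp
  | succ k ih =>
    have h1 : (k + 1) * L + r = L + (k * L + r) := by ring
    have h2 : Pf f L v b (L + (k * L + r)) = Pf f L v b L + Pf f L v b (k * L + r) := by
      unfold Pf
      rw [Finset.sum_range_add]
      congr 1
      apply Finset.sum_congr rfl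
      intro i _
      rw [Nat.add_mod_left]
    rw [h1, h2, ih]
    push_cast
    ring

/-- The prefix sums of the fully modified word. -/
lemma Pf_bool (hseg4 : ∀ r < L, seg r < 4) (b : Bool) (r : ℕ) (hr : r ≤ L) :
    Pf f L v b r = Pf f L v false r + ∑ q ∈ Finset.range 4, bz b * Dq f v seg q r := by
  have h := block_sum f L v seg (fun _ _ => b) hseg4 0 r hr
  rw [← Pf_low f L v false r hr, ← Pf_low f L v b r hr] at h
  exact h

lemma cong (hL : 0 < L) (hseg4 : ∀ r < L, seg r < 4)
    (hseg : ∀ r, r + 1 < L → seg r ≤ seg (r + 1))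
    (hcnt : ∀ q < 4, Dq f v seg q L = M * a q) (N s : ℕ) :
    (M : ℤ) ∣ Ff f u L v seg mem (N * L + s)
      - (N * Pf f L v false L + Pf f L v (mem (seg (s % L)) (u (N + s / L))) s) := by
  obtain ⟨k, r, hr, rfl⟩ : ∃ k r, r < L ∧ s = k * L + r :=
    ⟨s / L, s % L, Nat.mod_lt _ hL, (Nat.div_add_mod' s L).symm⟩
  have h1 : (k * L + r) % L = r := by
    rw [Nat.add_comm, Nat.add_mul_mod_self_right, Nat.mod_eq_of_lt hr]
  have h2 : (k * L + r) / L = k := by
    rw [Nat.add_comm, Nat.add_mul_div_right _ _ hL, Nat.div_eq_of_lt hr, Nat.zero_add]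
  rw [h1, h2]
  set b := mem (seg r) (u (N + k)) with hb
  have h3 : N * L + (k * L + r) = (N + k) * L + r := by ring
  rw [h3, Ff_eq f u L M v seg mem a hL hseg4 hcnt _ r hr.le, Pf_add f L v,
    Pf_bool f L v seg hseg4 b r hr.le, Pf_bool f L v seg hseg4 b L le_rfl]
  have e1 : (M : ℤ) ∣ ∑ q ∈ Finset.range 4, bz (mem q (u (N + k))) * Dq f v seg q r
      - bz b * Dq f v seg (seg r) r :=
    sum_seg_mod f L M v seg a hseg4 hseg hcnt (fun q => mem q (u (N + k))) r hr
  have e2 := sum_seg_mod f L M v seg a hseg4 hseg hcnt (fun _ => b) r hr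
  have e3 : (M : ℤ) ∣ ∑ q ∈ Finset.range 4, bz b * Dq f v seg q L := by
    apply Finset.dvd_sum
    intro q hq
    rw [Finset.mem_range] at hq
    rw [hcnt q hq]
    exact ⟨bz b * a q, by ring⟩
  obtain ⟨x1, e1⟩ := e1
  obtain ⟨x2, e2⟩ := e2
  obtain ⟨x3, e3⟩ := e3
  refine ⟨Gf u mem a (N + k) + x1 - x2 - k * x3, ?_⟩
  rw [e3]
  push_cast
  linear_combination e1 - e2

end

section

variable (u : ℕ → ℕ) (L M : ℕ) (v : Bool → ℕ → ℕ) (seg : ℕ → ℕ)
  (mem : ℕ → ℕ → Bool) (ax ay : ℕ → ℤ)

lemma Zf_succ (a : ℕ → ℤ) (q n m : ℕ) :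
    Zf u mem a (q + 1) n m = Zf u mem a q n m + a q * (bz (mem q (u (n + m)))
      - 2 * bz (mem q (u n)) + bz (mem q (u (n - m)))) := by
  unfold Zf dsp
  simp only [Finset.sum_range_succ]
  ring

lemma odd_dvd_cancel (M : ℕ) (hM : M % 2 = 1) (D c : ℤ)
    (hc : c = -2 ∨ c = -1 ∨ c = 1 ∨ c = 2) (h : (M : ℤ) ∣ D * c) : (M : ℤ) ∣ D := by
  have hM2 : (M : ℤ) ∣ 2 * D → (M : ℤ) ∣ D := fun h => by
    have hcop : IsCoprime (M : ℤ) 2 := by
      rw [Int.isCoprime_iff_gcd_eq_one]
      have : Nat.gcd M 2 = 1 := by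
        rw [Nat.gcd_comm, Nat.gcd_rec, hM, Nat.gcd_one_left]
      simpa [Int.gcd] using this
    exact hcop.dvd_of_dvd_mul_left h
  rcases hc with hc | hc | hc | hc <;> subst hc
  · apply hM2
    have := (dvd_neg (a := (M : ℤ)) (b := D * -2)).2 h
    have e : -(D * -2) = 2 * D := by ring
    rwa [e] at this
  · have := (dvd_neg (a := (M : ℤ)) (b := D * -1)).2 h
    have e : -(D * -1) = D := by ring
    rwa [e] at this
  · rwa [mul_one] at h
  · rw [mul_comm] at h
    exact hM2 h

/-- Synchronous second differences do not vanish. -/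
lemma sync_ne (hL : 0 < L) (hM : M % 2 = 1) (hseg4 : ∀ r < L, seg r < 4)
    (hseg : ∀ r, r + 1 < L → seg r ≤ seg (r + 1))
    (hX4 : ∀ q < 4, Dq fX v seg q L = M * ax q) (hY4 : ∀ q < 4, Dq fY v seg q L = M * ay q)
    (hin : ∀ r < L, (Dq fX v seg (seg r) r = 0 ∧ Dq fY v seg (seg r) r = 0)
      ∨ (Dq fX v seg (seg r) r = M * ax (seg r) ∧ Dq fY v seg (seg r) r = M * ay (seg r))
      ∨ ¬ ((M : ℤ) ∣ Dq fX v seg (seg r) r ∧ (M : ℤ) ∣ Dq fY v seg (seg r) r))
    (stage : ∀ q ≤ 4, ∀ n m : ℕ, 1 ≤ m → m ≤ n →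
      ¬ (Zf u mem ax q n m = 0 ∧ Zf u mem ay q n m = 0))
    (n m r : ℕ) (hm : 1 ≤ m) (hmn : m ≤ n) (hr : r < L)
    (hX : Ff fX u L v seg mem ((n + m) * L + r) + Ff fX u L v seg mem ((n - m) * L + r)
        - 2 * Ff fX u L v seg mem (n * L + r) = 0)
    (hY : Ff fY u L v seg mem ((n + m) * L + r) + Ff fY u L v seg mem ((n - m) * L + r)
        - 2 * Ff fY u L v seg mem (n * L + r) = 0) : False := by
  rw [sync_value fX u L M v seg mem ax hL hseg4 hseg hX4 n m r hmn hr] at hX
  rw [sync_value fY u L M v seg mem ay hL hseg4 hseg hY4 n m r hmn hr] at hY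
  have hMpos : (0 : ℤ) < M := by omega
  have hq := hseg4 r hr
  have hcases := hin r hr
  set DX := Dq fX v seg (seg r) r with hDX
  set DY := Dq fY v seg (seg r) r with hDY
  set c := bz (mem (seg r) (u (n + m))) - 2 * bz (mem (seg r) (u n))
          + bz (mem (seg r) (u (n - m))) with hc
  have hcv : c = 0 ∨ c = -2 ∨ c = -1 ∨ c = 1 ∨ c = 2 := by
    rw [hc]
    cases mem (seg r) (u (n + m)) <;> cases mem (seg r) (u n) <;>
      cases mem (seg r) (u (n - m)) <;> simp [bz]
  have fin0 : DX * c = 0 → DY * c = 0 → False := by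
    intro h1 h2
    have h3 : (M : ℤ) * Zf u mem ax (seg r) n m = 0 := by linear_combination hX - h1
    have h4 : (M : ℤ) * Zf u mem ay (seg r) n m = 0 := by linear_combination hY - h2
    refine stage (seg r) (by omega) n m hm hmn ⟨?_, ?_⟩
    · rcases mul_eq_zero.1 h3 with h | h
      · omega
      · exact h
    · rcases mul_eq_zero.1 h4 with h | h
      · omega
      · exact h
  rcases hcases with ⟨h1, h2⟩ | ⟨h1, h2⟩ | h1
  · exact fin0 (by rw [h1, zero_mul]) (by rw [h2, zero_mul])
  · refine stage (seg r + 1) (by omega) n m hm hmn ⟨?_, ?_⟩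
    · rw [Zf_succ, ← hc]
      have h3 : (M : ℤ) * (Zf u mem ax (seg r) n m + ax (seg r) * c) = 0 := by
        rw [h1] at hX
        linear_combination hX
      rcases mul_eq_zero.1 h3 with h | h
      · omega
      · exact h
    · rw [Zf_succ, ← hc]
      have h3 : (M : ℤ) * (Zf u mem ay (seg r) n m + ay (seg r) * c) = 0 := by
        rw [h2] at hY
        linear_combination hY
      rcases mul_eq_zero.1 h3 with h | h
      · omega
      · exact h
  · rcases hcv with hcv | hcv
    · exact fin0 (by rw [hcv, mul_zero]) (by rw [hcv, mul_zero])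
    · apply h1
      constructor
      · apply odd_dvd_cancel M hM DX c hcv
        exact ⟨- Zf u mem ax (seg r) n m, by linear_combination hX⟩
      · apply odd_dvd_cancel M hM DY c hcv
        exact ⟨- Zf u mem ay (seg r) n m, by linear_combination hY⟩

end

end Makela
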