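import Mathlib
import Pool.Agent.Lib.MP_1f24c5_co.Block

/-!
# The block code theorem
-/

namespace Makela

/-- All hypotheses on the two words of the block code, except the nonsynchronous ones. -/
structure Code (u : ℕ → ℕ) (L M : ℕ) (v : Bool → ℕ → ℕ) (seg : ℕ → ℕ)
    (mem : ℕ → ℕ → Bool) (ax ay : ℕ → ℤ) : Prop where
  hL : 4 ≤ L
  hM : M % 2 = 1
  hseg4 : ∀ r < L, seg r < 4
  hseg : ∀ r, r + 1 < L → seg r ≤ seg (r + 1)
  hX4 : ∀ q < 4, Dq fX v seg q L = M * ax q
  hY4 : ∀ q < 4, Dq fY v seg q L = M * ay q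
  hin : ∀ r < L, (Dq fX v seg (seg r) r = 0 ∧ Dq fY v seg (seg r) r = 0)
      ∨ (Dq fX v seg (seg r) r = M * ax (seg r) ∧ Dq fY v seg (seg r) r = M * ay (seg r))
      ∨ ¬ ((M : ℤ) ∣ Dq fX v seg (seg r) r ∧ (M : ℤ) ∣ Dq fY v seg (seg r) r)
  stage : ∀ q ≤ 4, ∀ n m : ℕ, 1 ≤ m → m ≤ n →
      ¬ (Zf u mem ax q n m = 0 ∧ Zf u mem ay q n m = 0)

/-- Second difference of the prefix sums. -/
def SD (f : ℕ → ℤ) (u : ℕ → ℕ) (L : ℕ) (v : Bool → ℕ → ℕ) (seg : ℕ → ℕ)
    (mem : ℕ → ℕ → Bool) (x h : ℕ) : ℤ :=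
  Ff f u L v seg mem (x + h) + Ff f u L v seg mem (x - h) - 2 * Ff f u L v seg mem x

section

variable {u : ℕ → ℕ} {L M : ℕ} {v : Bool → ℕ → ℕ} {seg : ℕ → ℕ}
  {mem : ℕ → ℕ → Bool} {ax ay : ℕ → ℤ}

lemma Code.sync (C : Code u L M v seg mem ax ay) (n m r : ℕ) (hm : 1 ≤ m) (hmn : m ≤ n)
    (hr : r < L) :
    ¬ (SD fX u L v seg mem (n * L + r) (m * L) = 0 ∧ SD fY u L v seg mem (n * L + r) (m * L) = 0) := by
  rintro ⟨hX, hY⟩
  have h1 : n * L + r + m * L = (n + m) * L + r := by ring
  have h2 : n * L + r - m * L = (n - m) * L + r := by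
    have : n * L = (n - m) * L + m * L := by
      rw [← Nat.add_mul, Nat.sub_add_cancel hmn]
    omega
  unfold SD at hX hY
  rw [h1, h2] at hX hY
  exact sync_ne u L M v seg mem ax ay (by have := C.hL; omega) C.hM C.hseg4 C.hseg C.hX4 C.hY4
    C.hin C.stage n m r hm hmn hr hX hY

lemma cong3 (f : ℕ → ℤ) (a : ℕ → ℤ) (hL : 0 < L) (hseg4 : ∀ r < L, seg r < 4)
    (hseg : ∀ r, r + 1 < L → seg r ≤ seg (r + 1))
    (hcnt : ∀ q < 4, Dq f v seg q L = M * a q) (N1 N2 N3 s1 s2 s3 : ℕ) (hN : N1 + N3 = 2 * N2) :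
    (M : ℤ) ∣ (Ff f u L v seg mem (N1 * L + s1) + Ff f u L v seg mem (N3 * L + s3)
        - 2 * Ff f u L v seg mem (N2 * L + s2))
      - (Pf f L v (mem (seg (s1 % L)) (u (N1 + s1 / L))) s1
        + Pf f L v (mem (seg (s3 % L)) (u (N3 + s3 / L))) s3
        - 2 * Pf f L v (mem (seg (s2 % L)) (u (N2 + s2 / L))) s2) := by
  obtain ⟨x1, h1⟩ := cong f u L M v seg mem a hL hseg4 hseg hcnt N1 s1
  obtain ⟨x2, h2⟩ := cong f u L M v seg mem a hL hseg4 hseg hcnt N2 s2
  obtain ⟨x3, h3⟩ := cong f u L M v seg mem a hL hseg4 hseg hcnt N3 s3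
  have hN' : (N1 : ℤ) + N3 = 2 * N2 := by exact_mod_cast hN
  refine ⟨x1 + x3 - 2 * x2, ?_⟩
  linear_combination h1 + h3 - 2 * h2 + (Pf f L v false L) * hN'

lemma Pf_succ (f : ℕ → ℤ) (b : Bool) (s : ℕ) :
    Pf f L v b (s + 1) = Pf f L v b s + f (v b (s % L)) := by
  unfold Pf
  rw [Finset.sum_range_succ]

lemma Ff_succ (f : ℕ → ℤ) (y : ℕ) :
    Ff f u L v seg mem (y + 1) = Ff f u L v seg mem y + f (Wd u L v seg mem y) := by
  unfold Ff
  rw [Finset.sum_range_succ]

/-- The block code theorem: no vanishing second differences far from the origin. -/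
theorem Code.no_zero (C : Code u L M v seg mem ax ay)
    (hC1 : ∀ e, 2 ≤ e → 2 * e ≤ L → ∀ r < L, ∀ b₁ b₂ b₃ : Bool,
      ¬ ((M : ℤ) ∣ Vf fX L v b₁ b₂ b₃ e r ∧ (M : ℤ) ∣ Vf fY L v b₁ b₂ b₃ e r))
    (hC2 : ∀ r < L, ∀ b₁ b₂ b₃ : Bool, (M : ℤ) ∣ Vf fX L v b₁ b₂ b₃ 1 r →
      (M : ℤ) ∣ Vf fY L v b₁ b₂ b₃ 1 r → v b₁ ((L + r - 1) % L) = v b₃ r)
    (x h : ℕ) (h2 : 2 ≤ h) (hx : 2 * L + h ≤ x) :
    ¬ (SD fX u L v seg mem x h = 0 ∧ SD fY u L v seg mem x h = 0) := by
  rintro ⟨hX, hY⟩
  have hL4 := C.hL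
  have hL : 0 < L := by omega
  obtain ⟨n, r, hr, rfl⟩ : ∃ n r, r < L ∧ x = n * L + r :=
    ⟨x / L, x % L, Nat.mod_lt _ hL, (Nat.div_add_mod' x L).symm⟩
  obtain ⟨m, e, he, rfl⟩ : ∃ m e, e < L ∧ h = m * L + e :=
    ⟨h / L, h % L, Nat.mod_lt _ hL, (Nat.div_add_mod' h L).symm⟩
  -- block indices
  have hmn2 : m + 2 ≤ n := by
    by_contra hcon
    have h1 : n ≤ m + 1 := by omega
    have h3 : n * L ≤ (m + 1) * L := Nat.mul_le_mul_right L h1
    have h4 : (m + 1) * L = m * L + L := by ring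
    omega
  have hmodr : (L + r) % L = r := by rw [Nat.add_mod_left, Nat.mod_eq_of_lt hr]
  have hdivr : (L + r) / L = 1 := by
    rw [Nat.add_div_left _ hL, Nat.div_eq_of_lt hr]
  by_cases he0 : e = 0
  · subst he0
    have hm1 : 1 ≤ m := by
      rcases Nat.eq_zero_or_pos m with h | h
      · subst h
        omega
      · exact h
    exact C.sync n m r hm1 (by omega) hr ⟨by simpa using hX, by simpa using hY⟩
  by_cases he1 : e = 1
  · subst he1
    have hm1 : 1 ≤ m := by
      rcases Nat.eq_zero_or_pos m with h | h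
      · subst h
        omega
      · exact h
    -- places
    have p1 : n * L + r - (m * L + 1) = (n - m - 1) * L + (L + r - 1) := by
      have e1 : n * L = (n - m - 1) * L + L + m * L := by
        have : n = (n - m - 1) + 1 + m := by omega
        calc n * L = ((n - m - 1) + 1 + m) * L := by rw [← this]
          _ = _ := by ring
      omega
    have p3 : n * L + r + (m * L + 1) = (n * L + r + m * L) + 1 := by ring
    have p3' : n * L + r + m * L = (n + m - 1) * L + (L + r) := by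
      have : n + m = (n + m - 1) + 1 := by omega
      calc n * L + r + m * L = (n + m) * L + r := by ring
        _ = ((n + m - 1) + 1) * L + r := by rw [← this]
        _ = _ := by ring
    have p2 : n * L + r = (n - 1) * L + (L + r) := by
      have : n = (n - 1) + 1 := by omega
      calc n * L + r = ((n - 1) + 1) * L + r := by rw [← this]
        _ = _ := by ring
    have p4 : n * L + r - m * L = (n * L + r - (m * L + 1)) + 1 := by
      have : m * L + 1 ≤ n * L := by
        have : (m + 1) * L ≤ n * L := Nat.mul_le_mul_right L (by omega)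
        have e2 : (m + 1) * L = m * L + L := by ring
        omega
      omega
    set b₁ := mem (seg ((L + r - 1) % L)) (u (n - m - 1 + (L + r - 1) / L)) with hb1
    set b₂ := mem (seg ((L + r) % L)) (u (n - 1 + (L + r) / L)) with hb2
    set b₃ := mem (seg ((L + r) % L)) (u (n + m - 1 + (L + r) / L)) with hb3
    have hW1 : Wd u L v seg mem (n * L + r - (m * L + 1)) = v b₁ ((L + r - 1) % L) := by
      unfold Wd
      rw [p1]
      have e1 : ((n - m - 1) * L + (L + r - 1)) % L = (L + r - 1) % L := by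
        rw [Nat.add_comm, Nat.add_mul_mod_self_right]
      have e2 : ((n - m - 1) * L + (L + r - 1)) / L = n - m - 1 + (L + r - 1) / L := by
        rw [Nat.add_comm, Nat.add_mul_div_right _ _ hL, Nat.add_comm]
      rw [e1, e2]
    have hW3 : Wd u L v seg mem (n * L + r + m * L) = v b₃ r := by
      unfold Wd
      rw [p3']
      have e1 : ((n + m - 1) * L + (L + r)) % L = r := by
        rw [Nat.add_comm, Nat.add_mul_mod_self_right, hmodr]
      have e2 : ((n + m - 1) * L + (L + r)) / L = n + m - 1 + 1 := by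
        rw [Nat.add_comm, Nat.add_mul_div_right _ _ hL, hdivr, Nat.add_comm]
      rw [e1, e2, hb3, hmodr, hdivr]
    have key : ∀ f : ℕ → ℤ, ∀ a : ℕ → ℤ, (∀ q < 4, Dq f v seg q L = M * a q) →
        SD f u L v seg mem (n * L + r) (m * L + 1) = 0 → (M : ℤ) ∣ Vf f L v b₁ b₂ b₃ 1 r := by
      intro f a hcnt hz
      obtain ⟨y, hy⟩ := cong3 (u := u) (mem := mem) f a hL C.hseg4 C.hseg hcnt
        (n - m - 1) (n - 1) (n + m - 1) (L + r - 1) (L + r) (L + r) (by omega)
      rw [← hb1, ← hb2, ← hb3, ← p1, ← p3', ← p2] at hy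
      unfold SD at hz
      rw [p3, Ff_succ, hW3] at hz
      have e4 : Pf f L v b₃ (L + r + 1) = Pf f L v b₃ (L + r) + f (v b₃ r) := by
        rw [Pf_succ, hmodr]
      refine ⟨-y, ?_⟩
      unfold Vf
      rw [e4]
      linear_combination hz - hy
    have hlet := hC2 r hr b₁ b₂ b₃ (key fX ax C.hX4 hX) (key fY ay C.hY4 hY)
    apply C.sync n m r hm1 (by omega) hr
    have fin : ∀ f : ℕ → ℤ, SD f u L v seg mem (n * L + r) (m * L + 1) = 0 →
        SD f u L v seg mem (n * L + r) (m * L) = 0 := by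
      intro f hz
      unfold SD at hz ⊢
      rw [p3, Ff_succ, hW3] at hz
      rw [p4, Ff_succ, hW1, hlet]
      linear_combination hz
    exact ⟨fin fX hX, fin fY hY⟩
  by_cases heL : e = L - 1
  · subst heL
    -- h = (m+1) L - 1
    have p3 : n * L + r + (m * L + (L - 1)) = (n + m) * L + (L + r - 1) := by
      have : (n + m) * L = n * L + m * L := by ring
      omega
    have p2 : n * L + r = (n - 1) * L + (L + r) := by
      have : n = (n - 1) + 1 := by omega
      calc n * L + r = ((n - 1) + 1) * L + r := by rw [← this]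
        _ = _ := by ring
    have p1' : n * L + r - (m + 1) * L = (n - m - 2) * L + (L + r) := by
      have : n = (n - m - 2) + 1 + (m + 1) := by omega
      have e1 : n * L = (n - m - 2) * L + L + (m + 1) * L := by
        calc n * L = ((n - m - 2) + 1 + (m + 1)) * L := by rw [← this]
          _ = _ := by ring
      omega
    have hmL : (m + 1) * L = m * L + L := by ring
    have hle : (m + 1) * L ≤ n * L := Nat.mul_le_mul_right L (by omega)
    have p1 : n * L + r - (m * L + (L - 1)) = (n * L + r - (m + 1) * L) + 1 := by omega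
    have p4 : n * L + r + (m + 1) * L = (n * L + r + (m * L + (L - 1))) + 1 := by omega
    set b₁ := mem (seg ((L + r) % L)) (u (n - m - 2 + (L + r) / L)) with hb1
    set b₂ := mem (seg ((L + r) % L)) (u (n - 1 + (L + r) / L)) with hb2
    set b₃ := mem (seg ((L + r - 1) % L)) (u (n + m + (L + r - 1) / L)) with hb3
    have hW3 : Wd u L v seg mem (n * L + r + (m * L + (L - 1))) = v b₃ ((L + r - 1) % L) := by
      unfold Wd
      rw [p3]
      have e1 : ((n + m) * L + (L + r - 1)) % L = (L + r - 1) % L := by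
        rw [Nat.add_comm, Nat.add_mul_mod_self_right]
      have e2 : ((n + m) * L + (L + r - 1)) / L = n + m + (L + r - 1) / L := by
        rw [Nat.add_comm, Nat.add_mul_div_right _ _ hL, Nat.add_comm]
      rw [e1, e2]
    have hW1 : Wd u L v seg mem (n * L + r - (m + 1) * L) = v b₁ r := by
      unfold Wd
      rw [p1']
      have e1 : ((n - m - 2) * L + (L + r)) % L = r := by
        rw [Nat.add_comm, Nat.add_mul_mod_self_right, hmodr]
      have e2 : ((n - m - 2) * L + (L + r)) / L = n - m - 2 + 1 := by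
        rw [Nat.add_comm, Nat.add_mul_div_right _ _ hL, hdivr, Nat.add_comm]
      rw [e1, e2, hb1, hmodr, hdivr]
    have key : ∀ f : ℕ → ℤ, ∀ a : ℕ → ℤ, (∀ q < 4, Dq f v seg q L = M * a q) →
        SD f u L v seg mem (n * L + r) (m * L + (L - 1)) = 0 →
        (M : ℤ) ∣ Vf f L v b₃ b₂ b₁ 1 r := by
      intro f a hcnt hz
      obtain ⟨y, hy⟩ := cong3 (u := u) (mem := mem) f a hL C.hseg4 C.hseg hcnt
        (n - m - 2) (n - 1) (n + m) (L + r) (L + r) (L + r - 1) (by omega)
      rw [← hb1, ← hb2, ← hb3, ← p1', ← p3, ← p2] at hy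
      unfold SD at hz
      rw [p1, Ff_succ, hW1] at hz
      have e4 : Pf f L v b₁ (L + r + 1) = Pf f L v b₁ (L + r) + f (v b₁ r) := by
        rw [Pf_succ, hmodr]
      refine ⟨-y, ?_⟩
      unfold Vf
      rw [e4]
      linear_combination hz - hy
    have hlet := hC2 r hr b₃ b₂ b₁ (key fX ax C.hX4 hX) (key fY ay C.hY4 hY)
    apply C.sync n (m + 1) r (by omega) (by omega) hr
    have fin : ∀ f : ℕ → ℤ, SD f u L v seg mem (n * L + r) (m * L + (L - 1)) = 0 →
        SD f u L v seg mem (n * L + r) ((m + 1) * L) = 0 := by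
      intro f hz
      unfold SD at hz ⊢
      rw [p1, Ff_succ, hW1] at hz
      rw [p4, Ff_succ, hW3, hlet]
      linear_combination hz
    exact ⟨fin fX hX, fin fY hY⟩
  by_cases h2e : 2 * e ≤ L
  · have p1 : n * L + r - (m * L + e) = (n - m - 1) * L + (L + r - e) := by
      have e1 : n * L = (n - m - 1) * L + L + m * L := by
        have : n = (n - m - 1) + 1 + m := by omega
        calc n * L = ((n - m - 1) + 1 + m) * L := by rw [← this]
          _ = _ := by ring
      omega
    have p3 : n * L + r + (m * L + e) = (n + m - 1) * L + (L + r + e) := by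
      have : n + m = (n + m - 1) + 1 := by omega
      calc n * L + r + (m * L + e) = (n + m) * L + r + e := by ring
        _ = ((n + m - 1) + 1) * L + r + e := by rw [← this]
        _ = _ := by ring
    have p2 : n * L + r = (n - 1) * L + (L + r) := by
      have : n = (n - 1) + 1 := by omega
      calc n * L + r = ((n - 1) + 1) * L + r := by rw [← this]
        _ = _ := by ring
    have key : ∀ f : ℕ → ℤ, ∀ a : ℕ → ℤ, (∀ q < 4, Dq f v seg q L = M * a q) →
        SD f u L v seg mem (n * L + r) (m * L + e) = 0 →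
        (M : ℤ) ∣ Vf f L v (mem (seg ((L + r - e) % L)) (u (n - m - 1 + (L + r - e) / L)))
          (mem (seg ((L + r) % L)) (u (n - 1 + (L + r) / L)))
          (mem (seg ((L + r + e) % L)) (u (n + m - 1 + (L + r + e) / L))) e r := by
      intro f a hcnt hz
      obtain ⟨y, hy⟩ := cong3 (u := u) (mem := mem) f a hL C.hseg4 C.hseg hcnt
        (n - m - 1) (n - 1) (n + m - 1) (L + r - e) (L + r) (L + r + e) (by omega)
      rw [← p1, ← p3, ← p2] at hy
      unfold SD at hz
      refine ⟨-y, ?_⟩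
      unfold Vf
      linear_combination hz - hy
    exact hC1 e (by omega) h2e r hr _ _ _ ⟨key fX ax C.hX4 hX, key fY ay C.hY4 hY⟩
  · obtain ⟨e', he', he'2⟩ : ∃ e', e + e' = L ∧ 2 ≤ e' := ⟨L - e, by omega, by omega⟩
    have p3 : n * L + r + (m * L + e) = (n + m) * L + (L + r - e') := by
      have : (n + m) * L = n * L + m * L := by ring
      omega
    have p1 : n * L + r - (m * L + e) = (n - m - 2) * L + (L + r + e') := by
      have e1 : n * L = (n - m - 2) * L + 2 * L + m * L := by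
        have : n = (n - m - 2) + 2 + m := by omega
        calc n * L = ((n - m - 2) + 2 + m) * L := by rw [← this]
          _ = _ := by ring
      omega
    have p2 : n * L + r = (n - 1) * L + (L + r) := by
      have : n = (n - 1) + 1 := by omega
      calc n * L + r = ((n - 1) + 1) * L + r := by rw [← this]
        _ = _ := by ring
    have key : ∀ f : ℕ → ℤ, ∀ a : ℕ → ℤ, (∀ q < 4, Dq f v seg q L = M * a q) →
        SD f u L v seg mem (n * L + r) (m * L + e) = 0 →
        (M : ℤ) ∣ Vf f L v (mem (seg ((L + r - e') % L)) (u (n + m + (L + r - e') / L)))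
          (mem (seg ((L + r) % L)) (u (n - 1 + (L + r) / L)))
          (mem (seg ((L + r + e') % L)) (u (n - m - 2 + (L + r + e') / L))) e' r := by
      intro f a hcnt hz
      obtain ⟨y, hy⟩ := cong3 (u := u) (mem := mem) f a hL C.hseg4 C.hseg hcnt
        (n - m - 2) (n - 1) (n + m) (L + r + e') (L + r) (L + r - e') (by omega)
      rw [← p1, ← p3, ← p2] at hy
      unfold SD at hz
      refine ⟨-y, ?_⟩
      unfold Vf
      linear_combination hz - hy
    exact hC1 e' he'2 (by omega) r hr _ _ _ ⟨key fX ax C.hX4 hX, key fY ay C.hY4 hY⟩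

end

/-- Abelian equivalent halves give a vanishing second difference. -/
theorem word_of_no_zero (W : ℕ → ℕ) (h3 : ∀ k, W k < 3) (c : ℕ)
    (h : ∀ x h : ℕ, 2 ≤ h → c + h ≤ x →
      ¬ ((∑ k ∈ Finset.range (x + h), fX (W k)) + (∑ k ∈ Finset.range (x - h), fX (W k))
          - 2 * (∑ k ∈ Finset.range x, fX (W k)) = 0 ∧
        (∑ k ∈ Finset.range (x + h), fY (W k)) + (∑ k ∈ Finset.range (x - h), fY (W k))
          - 2 * (∑ k ∈ Finset.range x, fY (W k)) = 0)) :
    ∃ w : ℕ → Fin 3, ∀ i n : ℕ, 2 ≤ n →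
      ¬ (∀ a : Fin 3,
          ((Finset.range n).filter (fun k => w (i + k) = a)).card =
          ((Finset.range n).filter (fun k => w (i + n + k) = a)).card) := by
  refine ⟨fun k => ⟨W (k + c), h3 _⟩, ?_⟩
  intro i n hn hcon
  refine h (i + n + c) n hn (by omega) ?_
  have e1 : i + n + c + n = (i + c) + n + n := by ring
  have e2 : i + n + c - n = i + c := by omega
  have e3 : i + n + c = (i + c) + n := by ring
  rw [e2, e1, e3]
  have hsum : ∀ f : ℕ → ℤ, (∑ k ∈ Finset.range n, f (W (i + c + k))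
        = ∑ k ∈ Finset.range n, f (W (i + c + n + k))) →
      (∑ k ∈ Finset.range (i + c + n + n), f (W k)) + (∑ k ∈ Finset.range (i + c), f (W k))
          - 2 * (∑ k ∈ Finset.range (i + c + n), f (W k)) = 0 := by
    intro f hf
    rw [Finset.sum_range_add (fun k => f (W k)) (i + c + n) n,
      Finset.sum_range_add (fun k => f (W k)) (i + c) n, ← hf]
    ring
  have h0 := hcon 0
  have h2 := hcon 2
  have cX : ∀ s : ℕ, ∑ k ∈ Finset.range n, fX (W (s + k))
      = n - ((Finset.range n).filter (fun k => W (s + k) = 0)).card := by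
    intro s
    rw [Finset.card_filter]
    push_cast
    have : (n : ℤ) = ∑ _k ∈ Finset.range n, (1 : ℤ) := by simp
    rw [this, ← Finset.sum_sub_distrib]
    apply Finset.sum_congr rfl
    intro k _
    unfold fX
    split_ifs <;> simp
  have cY : ∀ s : ℕ, ∑ k ∈ Finset.range n, fY (W (s + k))
      = ((Finset.range n).filter (fun k => W (s + k) = 2)).card := by
    intro s
    rw [Finset.card_filter]
    push_cast
    apply Finset.sum_congr rfl
    intro k _
    unfold fY
    split_ifs <;> simp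
  have f0 : ∀ s : ℕ, ((Finset.range n).filter (fun k => W (s + k) = 0)).card
      = ((Finset.range n).filter (fun k => (⟨W (s + k), h3 _⟩ : Fin 3) = 0)).card := by
    intro s
    congr 1
    apply Finset.filter_congr
    intro k _
    rw [Fin.ext_iff]
    rfl
  have f2 : ∀ s : ℕ, ((Finset.range n).filter (fun k => W (s + k) = 2)).card
      = ((Finset.range n).filter (fun k => (⟨W (s + k), h3 _⟩ : Fin 3) = 2)).card := by
    intro s
    congr 1
    apply Finset.filter_congr
    intro k _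
    rw [Fin.ext_iff]
    rfl
  have g1 : ∀ k, i + k + c = i + c + k := fun k => by ring
  have g2 : ∀ k, i + n + k + c = i + c + n + k := fun k => by ring
  simp only [g1, g2] at h0 h2
  refine ⟨hsum fX ?_, hsum fY ?_⟩
  · rw [cX, cX, f0, f0, h0]
  · rw [cY, cY, f2, f2, h2]

/-- **Main theorem**: a code satisfying the finite conditions gives an infinite ternary word
all of whose abelian squares have period one. -/
theorem Code.main {u : ℕ → ℕ} {L M : ℕ} {v : Bool → ℕ → ℕ} {seg : ℕ → ℕ}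
    {mem : ℕ → ℕ → Bool} {ax ay : ℕ → ℤ} (C : Code u L M v seg mem ax ay)
    (h3 : ∀ b r, v b r < 3)
    (hC1 : ∀ e, 2 ≤ e → 2 * e ≤ L → ∀ r < L, ∀ b₁ b₂ b₃ : Bool,
      ¬ ((M : ℤ) ∣ Vf fX L v b₁ b₂ b₃ e r ∧ (M : ℤ) ∣ Vf fY L v b₁ b₂ b₃ e r))
    (hC2 : ∀ r < L, ∀ b₁ b₂ b₃ : Bool, (M : ℤ) ∣ Vf fX L v b₁ b₂ b₃ 1 r →
      (M : ℤ) ∣ Vf fY L v b₁ b₂ b₃ 1 r → v b₁ ((L + r - 1) % L) = v b₃ r) :
    ∃ w : ℕ → Fin 3, ∀ i n : ℕ, 2 ≤ n →
      ¬ (∀ a : Fin 3,
          ((Finset.range n).filter (fun k => w (i + k) = a)).card =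
          ((Finset.range n).filter (fun k => w (i + n + k) = a)).card) :=
  word_of_no_zero (Wd u L v seg mem) (fun _ => h3 _ _) (2 * L)
    (fun x h h2 hx => C.no_zero hC1 hC2 x h h2 hx)

end Makela
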