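import Mathlib
import Pool.Agent.Lib.MP_1f24c5_co.Block

/-!
# Block codes: the general version

As in `Block`, but the steps of the four segments are arbitrary vectors in a subgroup `Λ` of
`ℤ × ℤ`, and vanishing values modulo `Λ` are allowed when they are exactly accounted for.
-/

namespace Makela

section

variable (f : ℕ → ℤ) (u : ℕ → ℕ) (L : ℕ) (v : Bool → ℕ → ℕ) (seg : ℕ → ℕ)
  (mem : ℕ → ℕ → Bool)

/-- The step of the `q`-th segment. -/
def lam (q : ℕ) : ℤ := Dq f v seg q L

/-- Global segment number of a place. -/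
def gs (s : ℕ) : ℕ := 4 * (s / L) + seg (s % L)

/-- The exact value of the place `s` relative to the stage `Q`. -/
def Xf (Q s : ℕ) (b : Bool) : ℤ :=
  Pf f L v false s + bz b * (Dq f v seg (seg (s % L)) (s % L)
    - (if gs L seg s < Q then lam f L v seg (seg (s % L)) else 0))

/-- The value of the reference stage `Q` seen from block `N`. -/
def Rf (N Q : ℕ) : ℤ :=
  N * Pf f L v false L + Gf u mem (lam f L v seg) (N + Q / 4)
    + dsp mem (lam f L v seg) (Q % 4) (u (N + Q / 4))

lemma sum_split (hseg4 : ∀ r < L, seg r < 4)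
    (hseg : ∀ r, r + 1 < L → seg r ≤ seg (r + 1)) (r : ℕ) (hr : r < L) (c : ℕ) :
    ∑ q ∈ Finset.range 4, bz (mem q c) * Dq f v seg q r
      = dsp mem (lam f L v seg) (seg r) c + bz (mem (seg r) c) * Dq f v seg (seg r) r := by
  have hs := hseg4 r hr
  have hsplit : Finset.range 4 = Finset.range (seg r) ∪ Finset.Ico (seg r) 4 := by
    ext x
    simp only [Finset.mem_union, Finset.mem_range, Finset.mem_Ico]
    omega
  have hdisj : Disjoint (Finset.range (seg r)) (Finset.Ico (seg r) 4) := by
    rw [Finset.disjoint_left]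
    intro x hx hx'
    rw [Finset.mem_range] at hx
    rw [Finset.mem_Ico] at hx'
    omega
  rw [hsplit, Finset.sum_union hdisj, ← Finset.sum_Ico_consecutive _ (Nat.le_succ (seg r)) hs]
  rw [Finset.sum_eq_zero (s := Finset.Ico (seg r + 1) 4), add_zero, Finset.sum_Ico_eq_sum_range]
  · simp only [Nat.succ_eq_add_one, Nat.add_sub_cancel_left, Finset.sum_range_one, add_zero]
    congr 1
    unfold dsp lam
    apply Finset.sum_congr rfl
    intro q hq
    rw [Finset.mem_range] at hq
    rw [Dq_eq_full f L v seg hseg q r hr hq]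
  · intro q hq
    rw [Finset.mem_Ico] at hq
    rw [Dq_eq_zero f L v seg hseg q r hr (by omega), mul_zero]

/-- The exact value of the prefix sums. -/
lemma Ff_exact (hL : 0 < L) (hseg4 : ∀ r < L, seg r < 4)
    (hseg : ∀ r, r + 1 < L → seg r ≤ seg (r + 1)) (n r : ℕ) (hr : r < L) :
    Ff f u L v seg mem (n * L + r) = n * Pf f L v false L + Gf u mem (lam f L v seg) n
      + Pf f L v false r + dsp mem (lam f L v seg) (seg r) (u n)
      + bz (mem (seg r) (u n)) * Dq f v seg (seg r) r := by
  have h := Ff_eq f u L 1 v seg mem (lam f L v seg) hL hseg4 (by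
    intro q _
    unfold lam
    push_cast
    ring) n r hr.le
  rw [h, sum_split f L v seg mem hseg4 hseg r hr (u n)]
  push_cast
  ring

/-- The value of a place relative to an adjacent stage. -/
lemma Ff_ref (hL : 0 < L) (hseg4 : ∀ r < L, seg r < 4)
    (hseg : ∀ r, r + 1 < L → seg r ≤ seg (r + 1)) (N s Q : ℕ)
    (h1 : gs L seg s ≤ Q) (h2 : Q ≤ gs L seg s + 1) :
    Ff f u L v seg mem (N * L + s) = Rf f u L v seg mem N Q
      + Xf f L v seg Q s (mem (seg (s % L)) (u (N + s / L))) := by
  obtain ⟨k, r, hr, rfl⟩ : ∃ k r, r < L ∧ s = k * L + r :=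
    ⟨s / L, s % L, Nat.mod_lt _ hL, (Nat.div_add_mod' s L).symm⟩
  have e1 : (k * L + r) % L = r := by
    rw [Nat.add_comm, Nat.add_mul_mod_self_right, Nat.mod_eq_of_lt hr]
  have e2 : (k * L + r) / L = k := by
    rw [Nat.add_comm, Nat.add_mul_div_right _ _ hL, Nat.div_eq_of_lt hr, Nat.zero_add]
  have hs := hseg4 r hr
  have e3 : N * L + (k * L + r) = (N + k) * L + r := by ring
  rw [e3, Ff_exact f u L v seg mem hL hseg4 hseg _ r hr]
  unfold Rf Xf
  unfold gs at h1 h2 ⊢
  rw [e1, e2] at h1 h2 ⊢
  rw [Pf_add f L v]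
  have hQ : Q = 4 * k + seg r ∨ Q = 4 * k + seg r + 1 := by omega
  rcases hQ with hQ | hQ
  · have e4 : Q / 4 = k := by omega
    have e5 : Q % 4 = seg r := by omega
    rw [e4, e5, if_neg (by omega)]
    push_cast
    ring
  · rw [if_pos (by omega)]
    by_cases h3 : seg r < 3
    · have e4 : Q / 4 = k := by omega
      have e5 : Q % 4 = seg r + 1 := by omega
      rw [e4, e5]
      unfold dsp
      rw [Finset.sum_range_succ]
      push_cast
      ring
    · have e4 : Q / 4 = k + 1 := by omega
      have e5 : Q % 4 = 0 := by omega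
      have e6 : seg r = 3 := by omega
      have e9 : N + (k + 1) = N + k + 1 := by ring
      rw [e4, e5, e9]
      have e7 : Gf u mem (lam f L v seg) (N + k + 1) = Gf u mem (lam f L v seg) (N + k)
          + (dsp mem (lam f L v seg) (seg r) (u (N + k))
            + bz (mem (seg r) (u (N + k))) * lam f L v seg (seg r)) := by
        unfold Gf
        rw [Finset.sum_range_succ]
        congr 1
        rw [e6]
        unfold dsp
        rw [Finset.sum_range_succ]
      have e8 : dsp mem (lam f L v seg) 0 (u (N + k + 1)) = 0 := by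
        unfold dsp
        simp
      rw [e7, e8]
      push_cast
      ring

lemma Rf_sd (N m Q : ℕ) (hm : m ≤ N) :
    Rf f u L v seg mem (N + m) Q + Rf f u L v seg mem (N - m) Q - 2 * Rf f u L v seg mem N Q
      = Zf u mem (lam f L v seg) (Q % 4) (N + Q / 4) m := by
  unfold Rf Zf
  have e1 : N + m + Q / 4 = N + Q / 4 + m := by ring
  have e2 : N - m + Q / 4 = N + Q / 4 - m := by omega
  rw [e1, e2]
  push_cast [Nat.cast_sub hm]
  ring

/-- The coefficients of the steps in the prefix sums. -/
def kap (N s q : ℕ) : ℤ :=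
  (∑ i ∈ Finset.range (N + s / L), bz (mem q (u i)))
    - (s / L : ℕ) * bz (mem (seg (s % L)) (u (N + s / L)))
    + (if q < seg (s % L) then bz (mem q (u (N + s / L)))
        - bz (mem (seg (s % L)) (u (N + s / L))) else 0)

lemma Ff_kap (hL : 0 < L) (hseg4 : ∀ r < L, seg r < 4)
    (hseg : ∀ r, r + 1 < L → seg r ≤ seg (r + 1)) (N s : ℕ) :
    Ff f u L v seg mem (N * L + s) = N * Pf f L v false L
      + Pf f L v (mem (seg (s % L)) (u (N + s / L))) s
      + ∑ q ∈ Finset.range 4, kap u L seg mem N s q * lam f L v seg q := by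
  obtain ⟨k, r, hr, rfl⟩ : ∃ k r, r < L ∧ s = k * L + r :=
    ⟨s / L, s % L, Nat.mod_lt _ hL, (Nat.div_add_mod' s L).symm⟩
  have e1 : (k * L + r) % L = r := by
    rw [Nat.add_comm, Nat.add_mul_mod_self_right, Nat.mod_eq_of_lt hr]
  have e2 : (k * L + r) / L = k := by
    rw [Nat.add_comm, Nat.add_mul_div_right _ _ hL, Nat.div_eq_of_lt hr, Nat.zero_add]
  have e3 : N * L + (k * L + r) = (N + k) * L + r := by ring
  rw [e3, Ff_exact f u L v seg mem hL hseg4 hseg _ r hr]
  unfold kap
  rw [e1, e2]
  set b := mem (seg r) (u (N + k)) with hb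
  rw [Pf_add f L v, Pf_bool f L v seg hseg4 b r hr.le, Pf_bool f L v seg hseg4 b L le_rfl,
    sum_split f L v seg (fun _ _ => b) hseg4 hseg r hr 0]
  have hs := hseg4 r hr
  have g1 : ∀ (m' : ℕ → ℕ → Bool) (c : ℕ), dsp m' (lam f L v seg) (seg r) c
      = ∑ q ∈ Finset.range 4, (if q < seg r then bz (m' q c) else 0) * lam f L v seg q := by
    intro m' c
    unfold dsp
    have hsplit : Finset.range 4 = Finset.range (seg r) ∪ Finset.Ico (seg r) 4 := by
      ext x
      simp only [Finset.mem_union, Finset.mem_range, Finset.mem_Ico]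
      omega
    have hdisj : Disjoint (Finset.range (seg r)) (Finset.Ico (seg r) 4) := by
      rw [Finset.disjoint_left]
      intro x hx hx'
      rw [Finset.mem_range] at hx
      rw [Finset.mem_Ico] at hx'
      omega
    rw [hsplit, Finset.sum_union hdisj, Finset.sum_eq_zero (s := Finset.Ico (seg r) 4), add_zero]
    · apply Finset.sum_congr rfl
      intro q hq
      rw [Finset.mem_range] at hq
      rw [if_pos hq]
    · intro q hq
      rw [Finset.mem_Ico] at hq
      rw [if_neg (by omega), zero_mul]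
  have g2 : Gf u mem (lam f L v seg) (N + k)
      = ∑ q ∈ Finset.range 4, (∑ i ∈ Finset.range (N + k), bz (mem q (u i))) * lam f L v seg q := by
    unfold Gf dsp
    rw [Finset.sum_comm]
    apply Finset.sum_congr rfl
    intro q _
    rw [Finset.sum_mul]
  have g3 : ∑ q ∈ Finset.range 4, bz b * Dq f v seg q L
      = ∑ q ∈ Finset.range 4, bz b * lam f L v seg q := rfl
  have g4 : ∑ q ∈ Finset.range 4, ((∑ i ∈ Finset.range (N + k), bz (mem q (u i)))
      - (k : ℕ) * bz b + (if q < seg r then bz (mem q (u (N + k))) - bz b else 0))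
        * lam f L v seg q
      = (∑ q ∈ Finset.range 4, (∑ i ∈ Finset.range (N + k), bz (mem q (u i))) * lam f L v seg q)
        - k * (∑ q ∈ Finset.range 4, bz b * lam f L v seg q)
        + (∑ q ∈ Finset.range 4,
            (if q < seg r then bz (mem q (u (N + k))) else 0) * lam f L v seg q)
        - (∑ q ∈ Finset.range 4, (if q < seg r then bz b else 0) * lam f L v seg q) := by
    rw [Finset.mul_sum, ← Finset.sum_sub_distrib, ← Finset.sum_add_distrib,
      ← Finset.sum_sub_distrib]
    apply Finset.sum_congr rfl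
    intro q _
    split_ifs <;> ring
  rw [g4, g2, g1 mem, g1 (fun _ _ => b), g3]
  push_cast
  ring

end

end Makela
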