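import Mathlib
import Pool.Agent.Lib.MP_1f24c5_co.CodeG
import Pool.Agent.Lib.MP_1f24c5_co.BlockMain

/-!
# The general block code theorem
-/

namespace Makela

/-- The value at `(e, r)` with bits `b₁ b₂ b₃` is exactly zero relative to a stage. -/
def HQ (L : ℕ) (v : Bool → ℕ → ℕ) (seg : ℕ → ℕ) (e r : ℕ) (b₁ b₂ b₃ : Bool) : Prop :=
  ∃ Q, (gs L seg (L + r - e) ≤ Q ∧ Q ≤ gs L seg (L + r - e) + 1)
    ∧ (gs L seg (L + r) ≤ Q ∧ Q ≤ gs L seg (L + r) + 1)
    ∧ (gs L seg (L + r + e) ≤ Q ∧ Q ≤ gs L seg (L + r + e) + 1)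
    ∧ Xf fX L v seg Q (L + r - e) b₁ + Xf fX L v seg Q (L + r + e) b₃
        - 2 * Xf fX L v seg Q (L + r) b₂ = 0
    ∧ Xf fY L v seg Q (L + r - e) b₁ + Xf fY L v seg Q (L + r + e) b₃
        - 2 * Xf fY L v seg Q (L + r) b₂ = 0

/-- The bits cannot be those of one occurrence. -/
def Unreal (A L : ℕ) (seg : ℕ → ℕ) (mem : ℕ → ℕ → Bool) (e r : ℕ) (b₁ b₂ b₃ : Bool) : Prop :=
  ∃ k, ∀ c < A, ¬ (((L + r - e) / L = k → mem (seg ((L + r - e) % L)) c = b₁)
    ∧ ((L + r) / L = k → mem (seg ((L + r) % L)) c = b₂)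
    ∧ ((L + r + e) / L = k → mem (seg ((L + r + e) % L)) c = b₃))

/-- The letters next to the outer places are equal. -/
def EqLet (L : ℕ) (v : Bool → ℕ → ℕ) (seg : ℕ → ℕ) (r : ℕ) (b₁ b₃ : Bool) : Prop :=
  ∀ b, (b = b₃ ∨ r + 1 = L ∨ seg (r + 1) ≠ seg r) → v b₁ ((L + r - 1) % L) = v b r

/-- The hypotheses on the two words of the block code, except the finite check. -/
structure CodeG (u : ℕ → ℕ) (A L : ℕ) (v : Bool → ℕ → ℕ) (seg : ℕ → ℕ)
    (mem : ℕ → ℕ → Bool) (Λ : AddSubgroup (ℤ × ℤ)) : Prop where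
  hu : ∀ n, u n < A
  hL : 4 ≤ L
  hseg4 : ∀ r < L, seg r < 4
  hseg : ∀ r, r + 1 < L → seg r ≤ seg (r + 1)
  hΛ : ∀ q < 4, (lam fX L v seg q, lam fY L v seg q) ∈ Λ
  stage : ∀ q < 4, ∀ n m : ℕ, 1 ≤ m → m ≤ n →
      ¬ (Zf u mem (lam fX L v seg) q n m = 0 ∧ Zf u mem (lam fY L v seg) q n m = 0)

/-- The finite check. -/
structure CheckG (A L : ℕ) (v : Bool → ℕ → ℕ) (seg : ℕ → ℕ)
    (mem : ℕ → ℕ → Bool) (Λ : AddSubgroup (ℤ × ℤ)) : Prop where
  h0 : ∀ r < L, ∀ b₁ b₂ b₃ : Bool,
    (Vf fX L v b₁ b₂ b₃ 0 r, Vf fY L v b₁ b₂ b₃ 0 r) ∈ Λ → HQ L v seg 0 r b₁ b₂ b₃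
  h1 : ∀ r < L, ∀ b₁ b₂ b₃ : Bool,
    (Vf fX L v b₁ b₂ b₃ 1 r, Vf fY L v b₁ b₂ b₃ 1 r) ∈ Λ →
      EqLet L v seg r b₁ b₃ ∨ HQ L v seg 1 r b₁ b₂ b₃
  h2 : ∀ e, 2 ≤ e → 2 * e ≤ L → ∀ r < L, ∀ b₁ b₂ b₃ : Bool,
    (Vf fX L v b₁ b₂ b₃ e r, Vf fY L v b₁ b₂ b₃ e r) ∈ Λ →
      HQ L v seg e r b₁ b₂ b₃ ∧ Unreal A L seg mem e r b₁ b₂ b₃

section

variable {u : ℕ → ℕ} {A L : ℕ} {v : Bool → ℕ → ℕ} {seg : ℕ → ℕ}
  {mem : ℕ → ℕ → Bool} {Λ : AddSubgroup (ℤ × ℤ)}

/-- The bit of a place seen from block `N`. -/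
def bit (u : ℕ → ℕ) (L : ℕ) (seg : ℕ → ℕ) (mem : ℕ → ℕ → Bool) (N s : ℕ) : Bool :=
  mem (seg (s % L)) (u (N + s / L))

lemma CodeG.mem_of_zero (C : CodeG u A L v seg mem Λ) (N1 N2 N3 e r : ℕ)
    (hN : N1 + N3 = 2 * N2)
    (hX : Ff fX u L v seg mem (N1 * L + (L + r - e)) + Ff fX u L v seg mem (N3 * L + (L + r + e))
      - 2 * Ff fX u L v seg mem (N2 * L + (L + r)) = 0)
    (hY : Ff fY u L v seg mem (N1 * L + (L + r - e)) + Ff fY u L v seg mem (N3 * L + (L + r + e))
      - 2 * Ff fY u L v seg mem (N2 * L + (L + r)) = 0) :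
    (Vf fX L v (bit u L seg mem N1 (L + r - e)) (bit u L seg mem N2 (L + r))
      (bit u L seg mem N3 (L + r + e)) e r,
     Vf fY L v (bit u L seg mem N1 (L + r - e)) (bit u L seg mem N2 (L + r))
      (bit u L seg mem N3 (L + r + e)) e r) ∈ Λ := by
  have hL : 0 < L := by have := C.hL; omega
  have hN' : (N1 : ℤ) + N3 = 2 * N2 := by exact_mod_cast hN
  have key : ∀ f : ℕ → ℤ, Ff f u L v seg mem (N1 * L + (L + r - e))
      + Ff f u L v seg mem (N3 * L + (L + r + e))
      - 2 * Ff f u L v seg mem (N2 * L + (L + r)) = 0 →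
      Vf f L v (bit u L seg mem N1 (L + r - e)) (bit u L seg mem N2 (L + r))
      (bit u L seg mem N3 (L + r + e)) e r
      = ∑ q ∈ Finset.range 4, (- (kap u L seg mem N1 (L + r - e) q
          + kap u L seg mem N3 (L + r + e) q - 2 * kap u L seg mem N2 (L + r) q))
            * lam f L v seg q := by
    intro f hz
    rw [Ff_kap f u L v seg mem hL C.hseg4 C.hseg, Ff_kap f u L v seg mem hL C.hseg4 C.hseg,
      Ff_kap f u L v seg mem hL C.hseg4 C.hseg] at hz
    have g : ∑ q ∈ Finset.range 4, (- (kap u L seg mem N1 (L + r - e) q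
          + kap u L seg mem N3 (L + r + e) q - 2 * kap u L seg mem N2 (L + r) q))
            * lam f L v seg q
        = - (∑ q ∈ Finset.range 4, kap u L seg mem N1 (L + r - e) q * lam f L v seg q)
          - (∑ q ∈ Finset.range 4, kap u L seg mem N3 (L + r + e) q * lam f L v seg q)
          + 2 * (∑ q ∈ Finset.range 4, kap u L seg mem N2 (L + r) q * lam f L v seg q) := by
      rw [Finset.mul_sum, ← Finset.sum_neg_distrib, ← Finset.sum_sub_distrib,
        ← Finset.sum_add_distrib]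
      apply Finset.sum_congr rfl
      intro q _
      ring
    rw [g]
    unfold Vf bit
    linear_combination hz - (Pf f L v false L) * hN'
  rw [key fX hX, key fY hY]
  have h2 : (∑ q ∈ Finset.range 4, (- (kap u L seg mem N1 (L + r - e) q
          + kap u L seg mem N3 (L + r + e) q - 2 * kap u L seg mem N2 (L + r) q))
            * lam fX L v seg q,
      ∑ q ∈ Finset.range 4, (- (kap u L seg mem N1 (L + r - e) q
          + kap u L seg mem N3 (L + r + e) q - 2 * kap u L seg mem N2 (L + r) q))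
            * lam fY L v seg q)
      = ∑ q ∈ Finset.range 4, (- (kap u L seg mem N1 (L + r - e) q
          + kap u L seg mem N3 (L + r + e) q - 2 * kap u L seg mem N2 (L + r) q))
            • ((lam fX L v seg q, lam fY L v seg q) : ℤ × ℤ) := by
    rw [Prod.ext_iff]
    constructor
    · rw [Prod.fst_sum]
      rfl
    · rw [Prod.snd_sum]
      rfl
  rw [h2]
  apply AddSubgroup.sum_mem
  intro q hq
  rw [Finset.mem_range] at hq
  exact AddSubgroup.zsmul_mem _ (C.hΛ q hq) _

/-- A value which is exactly accounted for does not vanish when the blocks are different. -/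
lemma CodeG.HQ_ne (C : CodeG u A L v seg mem Λ) (N1 N2 N3 m e r : ℕ) (hm : 1 ≤ m)
    (hmN : m ≤ N2)
    (hN : (N1 = N2 + m ∧ N3 = N2 - m) ∨ (N3 = N2 + m ∧ N1 = N2 - m))
    (hH : HQ L v seg e r (bit u L seg mem N1 (L + r - e)) (bit u L seg mem N2 (L + r))
      (bit u L seg mem N3 (L + r + e)))
    (hX : Ff fX u L v seg mem (N1 * L + (L + r - e)) + Ff fX u L v seg mem (N3 * L + (L + r + e))
      - 2 * Ff fX u L v seg mem (N2 * L + (L + r)) = 0)
    (hY : Ff fY u L v seg mem (N1 * L + (L + r - e)) + Ff fY u L v seg mem (N3 * L + (L + r + e))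
      - 2 * Ff fY u L v seg mem (N2 * L + (L + r)) = 0) : False := by
  have hL : 0 < L := by have := C.hL; omega
  obtain ⟨Q, ⟨a1, a2⟩, ⟨b1, b2⟩, ⟨c1, c2⟩, hBX, hBY⟩ := hH
  have key : ∀ f : ℕ → ℤ, Ff f u L v seg mem (N1 * L + (L + r - e))
      + Ff f u L v seg mem (N3 * L + (L + r + e))
      - 2 * Ff f u L v seg mem (N2 * L + (L + r)) = 0 →
      Xf f L v seg Q (L + r - e) (bit u L seg mem N1 (L + r - e))
        + Xf f L v seg Q (L + r + e) (bit u L seg mem N3 (L + r + e))
        - 2 * Xf f L v seg Q (L + r) (bit u L seg mem N2 (L + r)) = 0 →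
      Zf u mem (lam f L v seg) (Q % 4) (N2 + Q / 4) m = 0 := by
    intro f hz hB
    rw [Ff_ref f u L v seg mem hL C.hseg4 C.hseg N1 _ Q a1 a2,
      Ff_ref f u L v seg mem hL C.hseg4 C.hseg N3 _ Q c1 c2,
      Ff_ref f u L v seg mem hL C.hseg4 C.hseg N2 _ Q b1 b2] at hz
    rw [← Rf_sd f u L v seg mem N2 m Q hmN]
    unfold bit at hB
    rcases hN with ⟨h1, h3⟩ | ⟨h1, h3⟩
    · rw [← h1, ← h3]
      linear_combination hz - hB
    · rw [← h1, ← h3]
      linear_combination hz - hB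
  exact C.stage (Q % 4) (Nat.mod_lt _ (by norm_num)) (N2 + Q / 4) m hm (by omega)
    ⟨key fX hX hBX, key fY hY hBY⟩

lemma CodeG.not_unreal (C : CodeG u A L v seg mem Λ) (N e r : ℕ) :
    ¬ Unreal A L seg mem e r (bit u L seg mem N (L + r - e)) (bit u L seg mem N (L + r))
      (bit u L seg mem N (L + r + e)) := by
  rintro ⟨k, hk⟩
  apply hk (u (N + k)) (C.hu _)
  unfold bit
  refine ⟨?_, ?_, ?_⟩ <;>
  · intro h
    rw [h]

/-- Shifted blocks: no vanishing second difference. -/
lemma CodeG.far (C : CodeG u A L v seg mem Λ) (K : CheckG A L v seg mem Λ)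
    (N1 N2 N3 m e r : ℕ) (hm : 1 ≤ m) (hmN : m ≤ N2) (hr : r < L) (he : 2 * e ≤ L)
    (hN : (N1 = N2 + m ∧ N3 = N2 - m) ∨ (N3 = N2 + m ∧ N1 = N2 - m))
    (hX : Ff fX u L v seg mem (N1 * L + (L + r - e)) + Ff fX u L v seg mem (N3 * L + (L + r + e))
      - 2 * Ff fX u L v seg mem (N2 * L + (L + r)) = 0)
    (hY : Ff fY u L v seg mem (N1 * L + (L + r - e)) + Ff fY u L v seg mem (N3 * L + (L + r + e))
      - 2 * Ff fY u L v seg mem (N2 * L + (L + r)) = 0) : False := by
  have hL4 := C.hL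
  have hL : 0 < L := by omega
  have hNs : N1 + N3 = 2 * N2 := by omega
  have hzero : ∀ (hX : Ff fX u L v seg mem (N1 * L + (L + r - 0))
        + Ff fX u L v seg mem (N3 * L + (L + r + 0))
        - 2 * Ff fX u L v seg mem (N2 * L + (L + r)) = 0)
      (hY : Ff fY u L v seg mem (N1 * L + (L + r - 0)) + Ff fY u L v seg mem (N3 * L + (L + r + 0))
        - 2 * Ff fY u L v seg mem (N2 * L + (L + r)) = 0), False := by
    intro hX hY
    have hmem := C.mem_of_zero N1 N2 N3 0 r hNs hX hY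
    exact C.HQ_ne N1 N2 N3 m 0 r hm hmN hN (K.h0 r hr _ _ _ hmem) hX hY
  have hmem := C.mem_of_zero N1 N2 N3 e r hNs hX hY
  by_cases he0 : e = 0
  · subst he0
    exact hzero hX hY
  by_cases he1 : e = 1
  · subst he1
    rcases K.h1 r hr _ _ _ hmem with h | h
    · have hmodr : (L + r) % L = r := by rw [Nat.add_mod_left, Nat.mod_eq_of_lt hr]
      have hdivr : (L + r) / L = 1 := by
        rw [Nat.add_div_left _ hL, Nat.div_eq_of_lt hr]
      have hW3 : Wd u L v seg mem (N3 * L + (L + r)) = v (mem (seg r) (u (N3 + 1))) r := by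
        unfold Wd
        have e1 : (N3 * L + (L + r)) % L = r := by
          rw [Nat.add_comm, Nat.add_mul_mod_self_right, hmodr]
        have e2 : (N3 * L + (L + r)) / L = N3 + 1 := by
          rw [Nat.add_comm, Nat.add_mul_div_right _ _ hL, hdivr, Nat.add_comm]
        rw [e1, e2]
      have hW1 : Wd u L v seg mem (N1 * L + (L + r - 1))
          = v (bit u L seg mem N1 (L + r - 1)) ((L + r - 1) % L) := by
        unfold Wd bit
        have e1 : (N1 * L + (L + r - 1)) % L = (L + r - 1) % L := by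
          rw [Nat.add_comm, Nat.add_mul_mod_self_right]
        have e2 : (N1 * L + (L + r - 1)) / L = N1 + (L + r - 1) / L := by
          rw [Nat.add_comm, Nat.add_mul_div_right _ _ hL, Nat.add_comm]
        rw [e1, e2]
      have hlet : v (bit u L seg mem N1 (L + r - 1)) ((L + r - 1) % L)
          = v (mem (seg r) (u (N3 + 1))) r := by
        apply h
        by_cases hcase : r + 1 < L ∧ seg (r + 1) = seg r
        · left
          unfold bit
          have e1 : (L + r + 1) % L = r + 1 := by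
            have : L + r + 1 = L + (r + 1) := by ring
            rw [this, Nat.add_mod_left, Nat.mod_eq_of_lt hcase.1]
          have e2 : (L + r + 1) / L = 1 := by
            have : L + r + 1 = L + (r + 1) := by ring
            rw [this, Nat.add_div_left _ hL, Nat.div_eq_of_lt hcase.1]
          rw [e1, e2, hcase.2]
        · right
          by_cases h5 : r + 1 < L
          · right
            intro h6
            exact hcase ⟨h5, h6⟩
          · left
            omega
      have fin : ∀ f : ℕ → ℤ, Ff f u L v seg mem (N1 * L + (L + r - 1))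
          + Ff f u L v seg mem (N3 * L + (L + r + 1))
          - 2 * Ff f u L v seg mem (N2 * L + (L + r)) = 0 →
          Ff f u L v seg mem (N1 * L + (L + r - 0)) + Ff f u L v seg mem (N3 * L + (L + r + 0))
          - 2 * Ff f u L v seg mem (N2 * L + (L + r)) = 0 := by
        intro f hz
        have e3 : N3 * L + (L + r + 1) = N3 * L + (L + r) + 1 := by ring
        have e4 : N1 * L + (L + r - 0) = N1 * L + (L + r - 1) + 1 := by omega
        rw [e3, Ff_succ, hW3] at hz
        rw [e4, Ff_succ, hW1, hlet, Nat.add_zero]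
        linear_combination hz
      exact hzero (fin fX hX) (fin fY hY)
    · exact C.HQ_ne N1 N2 N3 m 1 r hm hmN hN h hX hY
  · exact C.HQ_ne N1 N2 N3 m e r hm hmN hN (K.h2 e (by omega) he r hr _ _ _ hmem).1 hX hY

/-- The block code theorem: no vanishing second differences far from the origin. -/
theorem CodeG.no_zero (C : CodeG u A L v seg mem Λ) (K : CheckG A L v seg mem Λ)
    (x h : ℕ) (h2 : 2 ≤ h) (hx : 2 * L + h ≤ x) :
    ¬ (SD fX u L v seg mem x h = 0 ∧ SD fY u L v seg mem x h = 0) := by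
  rintro ⟨hX, hY⟩
  have hL4 := C.hL
  have hL : 0 < L := by omega
  obtain ⟨n, r, hr, rfl⟩ : ∃ n r, r < L ∧ x = n * L + r :=
    ⟨x / L, x % L, Nat.mod_lt _ hL, (Nat.div_add_mod' x L).symm⟩
  obtain ⟨m, e, he, rfl⟩ : ∃ m e, e < L ∧ h = m * L + e :=
    ⟨h / L, h % L, Nat.mod_lt _ hL, (Nat.div_add_mod' h L).symm⟩
  have hmn2 : m + 2 ≤ n := by
    by_contra hcon
    have h1 : n ≤ m + 1 := by omega
    have h3 : n * L ≤ (m + 1) * L := Nat.mul_le_mul_right L h1
    have h4 : (m + 1) * L = m * L + L := by ring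
    omega
  have p2 : n * L + r = (n - 1) * L + (L + r) := by
    have : n = (n - 1) + 1 := by omega
    calc n * L + r = ((n - 1) + 1) * L + r := by rw [← this]
      _ = _ := by ring
  by_cases h2e : 2 * e ≤ L
  · have p1 : n * L + r - (m * L + e) = (n - 1 - m) * L + (L + r - e) := by
      have e1 : n * L = (n - 1 - m) * L + L + m * L := by
        have : n = (n - 1 - m) + 1 + m := by omega
        calc n * L = ((n - 1 - m) + 1 + m) * L := by rw [← this]
          _ = _ := by ring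
      omega
    have p3 : n * L + r + (m * L + e) = (n - 1 + m) * L + (L + r + e) := by
      have : n + m = (n - 1 + m) + 1 := by omega
      calc n * L + r + (m * L + e) = (n + m) * L + r + e := by ring
        _ = ((n - 1 + m) + 1) * L + r + e := by rw [← this]
        _ = _ := by ring
    unfold SD at hX hY
    have hX' : Ff fX u L v seg mem ((n - 1 - m) * L + (L + r - e))
        + Ff fX u L v seg mem ((n - 1 + m) * L + (L + r + e))
        - 2 * Ff fX u L v seg mem ((n - 1) * L + (L + r)) = 0 := by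
      rw [← p1, ← p2, ← p3]
      linear_combination hX
    have hY' : Ff fY u L v seg mem ((n - 1 - m) * L + (L + r - e))
        + Ff fY u L v seg mem ((n - 1 + m) * L + (L + r + e))
        - 2 * Ff fY u L v seg mem ((n - 1) * L + (L + r)) = 0 := by
      rw [← p1, ← p2, ← p3]
      linear_combination hY
    rcases Nat.eq_zero_or_pos m with hm | hm
    · subst hm
      rw [Nat.add_zero, Nat.sub_zero] at hX' hY'
      have hmem := C.mem_of_zero (n - 1) (n - 1) (n - 1) e r (by omega) hX' hY'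
      exact C.not_unreal (n - 1) e r (K.h2 e (by omega) h2e r hr _ _ _ hmem).2
    · exact C.far K (n - 1 - m) (n - 1) (n - 1 + m) m e r hm (by omega) hr h2e
        (Or.inr ⟨rfl, rfl⟩) hX' hY'
  · obtain ⟨e', he', he'2⟩ : ∃ e', e + e' = L ∧ 1 ≤ e' := ⟨L - e, by omega, by omega⟩
    have p3 : n * L + r + (m * L + e) = (n - 1 + (m + 1)) * L + (L + r - e') := by
      have : n - 1 + (m + 1) = n + m := by omega
      rw [this]
      have : (n + m) * L = n * L + m * L := by ring
      omega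
    have p1 : n * L + r - (m * L + e) = (n - 1 - (m + 1)) * L + (L + r + e') := by
      have e1 : n * L = (n - 1 - (m + 1)) * L + 2 * L + m * L := by
        have : n = (n - 1 - (m + 1)) + 2 + m := by omega
        calc n * L = ((n - 1 - (m + 1)) + 2 + m) * L := by rw [← this]
          _ = _ := by ring
      omega
    unfold SD at hX hY
    have hX' : Ff fX u L v seg mem ((n - 1 + (m + 1)) * L + (L + r - e'))
        + Ff fX u L v seg mem ((n - 1 - (m + 1)) * L + (L + r + e'))
        - 2 * Ff fX u L v seg mem ((n - 1) * L + (L + r)) = 0 := by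
      rw [← p1, ← p2, ← p3]
      linear_combination hX
    have hY' : Ff fY u L v seg mem ((n - 1 + (m + 1)) * L + (L + r - e'))
        + Ff fY u L v seg mem ((n - 1 - (m + 1)) * L + (L + r + e'))
        - 2 * Ff fY u L v seg mem ((n - 1) * L + (L + r)) = 0 := by
      rw [← p1, ← p2, ← p3]
      linear_combination hY
    exact C.far K (n - 1 + (m + 1)) (n - 1) (n - 1 - (m + 1)) (m + 1) e' r (by omega) (by omega)
      hr (by omega) (Or.inl ⟨rfl, rfl⟩) hX' hY'

end

/-- **Main theorem**: a code satisfying the finite check gives an infinite ternary word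
all of whose abelian squares have period one. -/
theorem CodeG.main {u : ℕ → ℕ} {A L : ℕ} {v : Bool → ℕ → ℕ} {seg : ℕ → ℕ}
    {mem : ℕ → ℕ → Bool} {Λ : AddSubgroup (ℤ × ℤ)} (C : CodeG u A L v seg mem Λ)
    (K : CheckG A L v seg mem Λ) (h3 : ∀ b r, v b r < 3) :
    ∃ w : ℕ → Fin 3, ∀ i n : ℕ, 2 ≤ n →
      ¬ (∀ a : Fin 3,
          ((Finset.range n).filter (fun k => w (i + k) = a)).card =
          ((Finset.range n).filter (fun k => w (i + n + k) = a)).card) :=
  word_of_no_zero (Wd u L v seg mem) (fun _ => h3 _ _) (2 * L)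
    (fun x h h2 hx => C.no_zero K x h h2 hx)

end Makela
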