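import Pool.Agent.Lib.MP_1f24c5_co.SimdDef

/-!
# The data of a block code and its checks: definitions for kernel evaluation
-/

namespace Makela

/-- `f` holds for all numbers below `n`. -/
def allB : Nat → (Nat → Bool) → Bool
  | 0, _ => true
  | n + 1, f => f n && allB n f

/-- All fields of `x` are below `c`, and only the first `n` may be nonzero. -/
def bndB (b n c x : Nat) : Bool :=
  Nat.blt x (2 ^ (b * n)) && (Nat.beq (x &&& (2 ^ (b - 1) * rp b n)) 0 &&
    Nat.beq ((x + (2 ^ (b - 1) - c) * rp b n) &&& (2 ^ (b - 1) * rp b n)) 0)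

/-- The data of a block code. -/
structure Dat where
  /-- number of bits of a field -/
  b : Nat
  /-- block length -/
  L : Nat
  /-- modulus -/
  N : Nat
  /-- weight of the first coordinate -/
  p : Nat
  /-- weight of the second coordinate -/
  s : Nat
  /-- number of letters of the base word -/
  A : Nat
  /-- boundaries of the segments -/
  c : Nat → Nat
  /-- the classes -/
  mem : Nat → Nat → Bool
  /-- first coordinates of the letters -/
  MX : Bool → Nat
  /-- second coordinates of the letters -/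
  MY : Bool → Nat
  /-- sums modulo `N` -/
  P : Bool → Nat
  /-- doubled sums modulo `N` -/
  E : Bool → Nat
  /-- exact sums of the first coordinates -/
  XX : Bool → Nat
  /-- exact sums of the second coordinates -/
  YY : Bool → Nat

namespace Dat

/-- Segment of a place. -/
def seg (D : Dat) (r : Nat) : Nat :=
  if r < D.c 1 then 0 else if r < D.c 2 then 1 else if r < D.c 3 then 2 else 3

/-- The two words. -/
def v (D : Dat) (β : Bool) (r : Nat) : Nat := fld D.b (D.MX β) r + fld D.b (D.MY β) r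

/-- Global segment. -/
def gseg (D : Dat) (t : Nat) : Nat := 4 * (t / D.L) + D.seg (t % D.L)

/-- The exact value relative to stage `Q`, shifted by `2 * 2 ^ b`. -/
def xf (D : Dat) (Z : Bool → Nat) (Q t : Nat) (β : Bool) : Nat :=
  (fun k ρ : Nat => (fun q : Nat => (fun cc : Nat =>
    k * fld D.b (Z false) D.L + fld D.b (Z false) ρ +
      cond β ((2 * 2 ^ D.b + fld D.b (Z true) ρ + fld D.b (Z false) cc)
        - (fld D.b (Z false) ρ + fld D.b (Z true) cc)) (2 * 2 ^ D.b))
    (D.c (cond (Nat.blt (4 * k + q) Q) (q + 1) q))) (D.seg ρ)) (t / D.L) (t % D.L)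

/-- The exact value at stage `Q` vanishes. -/
def hqQ (D : Dat) (Q e r : Nat) (b₁ b₂ b₃ : Bool) : Bool :=
  (fun g1 g2 g3 : Nat =>
    Nat.ble g1 Q && (Nat.ble Q (g1 + 1) && (Nat.ble g2 Q && (Nat.ble Q (g2 + 1) &&
      (Nat.ble g3 Q && (Nat.ble Q (g3 + 1) &&
        (Nat.beq (D.xf D.XX Q (D.L + r - e) b₁ + D.xf D.XX Q (D.L + r + e) b₃)
          (2 * D.xf D.XX Q (D.L + r) b₂) &&
         Nat.beq (D.xf D.YY Q (D.L + r - e) b₁ + D.xf D.YY Q (D.L + r + e) b₃)
          (2 * D.xf D.YY Q (D.L + r) b₂))))))))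
    (D.gseg (D.L + r - e)) (D.gseg (D.L + r)) (D.gseg (D.L + r + e))

/-- The exact value vanishes at some stage. -/
def hqb (D : Dat) (e r : Nat) (b₁ b₂ b₃ : Bool) : Bool :=
  D.hqQ (D.gseg (D.L + r - e)) e r b₁ b₂ b₃ || D.hqQ (D.gseg (D.L + r - e) + 1) e r b₁ b₂ b₃

/-- The bit at the place `t`, if it is in block `k`, is not that of the letter `l`. -/
def mis (D : Dat) (k l t : Nat) (β : Bool) : Bool :=
  Nat.beq (t / D.L) k && (D.mem (D.seg (t % D.L)) l != β)

/-- The bits are impossible in the block `k`. -/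
def unrk (D : Dat) (k e r : Nat) (b₁ b₂ b₃ : Bool) : Bool :=
  allB D.A (fun l => D.mis k l (D.L + r - e) b₁ || (D.mis k l (D.L + r) b₂ ||
    D.mis k l (D.L + r + e) b₃))

/-- The bits are impossible. -/
def unr (D : Dat) (e r : Nat) (b₁ b₂ b₃ : Bool) : Bool :=
  D.unrk 0 e r b₁ b₂ b₃ || (D.unrk 1 e r b₁ b₂ b₃ || D.unrk 2 e r b₁ b₂ b₃)

/-- An exception is harmless. -/
def exOK (D : Dat) (e x : Nat) : Bool :=
  (fun r c : Nat => (fun b₁ b₂ b₃ : Bool => D.hqb e r b₁ b₂ b₃ && D.unr e r b₁ b₂ b₃)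
    (Nat.beq (c % 2) 1) (Nat.beq (c / 2 % 2) 1) (Nat.beq (c / 4 % 2) 1)) (x / 8) (x % 8)

/-- A list of exceptions is harmless. -/
def exAll (D : Dat) (e : Nat) : List Nat → Bool
  | [] => true
  | x :: l => D.exOK e x && D.exAll e l

/-- A run of lists of exceptions is harmless. -/
def exLoop (D : Dat) : List (List Nat) → Nat → Bool
  | [], _ => true
  | l :: ll, e => D.exAll e l && D.exLoop ll (e + 1)

/-- Difference zero at the place `r`. -/
def chk0 (D : Dat) (r : Nat) : Bool :=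
  (fun x0 x1 y0 y1 q : Nat =>
    (fun a0 a1 : Nat =>
      Nat.beq (x1 + fld D.b (D.XX false) a0) (x0 + fld D.b (D.XX true) a0) &&
      Nat.beq (y1 + fld D.b (D.YY false) a0) (y0 + fld D.b (D.YY true) a0) ||
      (Nat.beq (x1 + fld D.b (D.XX false) a1) (x0 + fld D.b (D.XX true) a1) &&
      Nat.beq (y1 + fld D.b (D.YY false) a1) (y0 + fld D.b (D.YY true) a1) ||
      (fun δ : Nat => Nat.ble 1 (δ % D.N) && Nat.ble 1 (2 * δ % D.N))
        (fld D.b (D.P true) r + D.N - fld D.b (D.P false) r)))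
    (D.c q) (D.c (q + 1)))
  (fld D.b (D.XX false) r) (fld D.b (D.XX true) r) (fld D.b (D.YY false) r)
  (fld D.b (D.YY true) r) (D.seg r)

/-- The place `r` is the last of its segment. -/
def lastB (D : Dat) (r : Nat) : Bool :=
  Nat.beq (r + 1) D.L || !(Nat.beq (D.seg (r + 1)) (D.seg r))

/-- Letters next to the outer places are equal. -/
def eqlet (D : Dat) (r : Nat) (b₁ b₃ : Bool) : Bool :=
  (fun z : Nat => cond (D.lastB r) (Nat.beq z (D.v false r) && Nat.beq z (D.v true r))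
    (Nat.beq z (D.v b₃ r))) (D.v b₁ ((D.L + r - 1) % D.L))

/-- The weight of the letter at `r`. -/
def wt (D : Dat) (β : Bool) (r : Nat) : Nat :=
  (D.p * fld D.b (D.MX β) r + D.s * fld D.b (D.MY β) r) % D.N

/-- Difference one at the place `r` with the given bits. -/
def chk1b (D : Dat) (δ r : Nat) (b₁ b₂ b₃ : Bool) : Bool :=
  Nat.ble 1 ((cond b₁ δ 0 + cond b₃ δ 0 + cond b₂ (2 * (D.N - δ)) 0 + D.wt b₃ r
    + (D.N - D.wt b₁ ((D.L + r - 1) % D.L))) % D.N) ||
  (D.eqlet r b₁ b₃ || D.hqb 1 r b₁ b₂ b₃)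

/-- Difference one at the place `r`. -/
def chk1 (D : Dat) (r : Nat) : Bool :=
  (fun δ : Nat =>
    D.chk1b δ r false false false && (D.chk1b δ r false false true &&
    (D.chk1b δ r false true false && (D.chk1b δ r false true true &&
    (D.chk1b δ r true false false && (D.chk1b δ r true false true &&
    (D.chk1b δ r true true false && D.chk1b δ r true true true)))))))
  ((fld D.b (D.P true) r + D.N - fld D.b (D.P false) r) % D.N)

/-- Differences zero and one for a run of places. -/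
def loop01 (D : Dat) : Nat → Nat → Bool
  | 0, _ => true
  | n + 1, r => (D.chk0 r && D.chk1 r) && D.loop01 n (r + 1)

/-- Three copies of a packed array of length `L`. -/
def tri (D : Dat) (x : Nat) : Nat := x + (x <<< (D.b * D.L)) + (x <<< (D.b * (2 * D.L)))

/-- Certificate for the letters and the exact sums. -/
def certX (D : Dat) (β : Bool) : Bool :=
  bndB D.b D.L 2 (D.MX β) && (bndB D.b D.L 2 (D.MY β) &&
  (Nat.beq (D.MY β &&& D.MX β) (D.MY β) &&
  (bndB D.b (D.L + 1) (2 ^ (D.b - 1)) (D.XX β) &&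
  (bndB D.b (D.L + 1) (2 ^ (D.b - 1)) (D.YY β) &&
  (Nat.beq (fld D.b (D.XX β) 0) 0 && (Nat.beq (fld D.b (D.YY β) 0) 0 &&
  (Nat.beq (D.XX β >>> D.b) ((D.XX β &&& (2 ^ (D.b * D.L) - 1)) + D.MX β) &&
   Nat.beq (D.YY β >>> D.b) ((D.YY β &&& (2 ^ (D.b * D.L) - 1)) + D.MY β))))))))

/-- Certificate for the sums modulo `N`. -/
def certP (D : Dat) (β : Bool) : Bool :=
  bndB D.b (3 * D.L + 1) D.N (D.P β) && (bndB D.b D.L D.N (D.E β) &&
  (Nat.beq (fld D.b (D.P β) 0) 0 &&
  ((fun W Q : Nat => (fun K : Nat =>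
      bndB D.b (3 * D.L) 4 K && Nat.beq W (Q + D.N * K)) ((W - Q) / D.N))
    ((D.P β &&& (2 ^ (D.b * (3 * D.L)) - 1)) + (D.p * D.tri (D.MX β) + D.s * D.tri (D.MY β)))
    (D.P β >>> D.b) &&
  (fun W Q : Nat => (fun K : Nat =>
      bndB D.b D.L 4 K && Nat.beq W (Q + D.N * K)) ((W - Q) / D.N))
    (2 * ((D.P β >>> (D.b * D.L)) &&& (2 ^ (D.b * D.L) - 1))) (D.E β))))

/-- Certificate for the constants. -/
def cert0 (D : Dat) : Bool :=
  Nat.ble 3 D.b && (Nat.ble 1 D.N && (Nat.ble (2 * D.N) (2 ^ (D.b - 1)) &&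
  (Nat.blt D.p D.N && (Nat.blt D.s D.N && (Nat.ble 4 D.L && (Nat.beq (D.c 0) 0 &&
  (Nat.ble (D.c 1) (D.c 2) && (Nat.ble (D.c 2) (D.c 3) && (Nat.ble (D.c 3) D.L &&
  (Nat.beq (D.c 4) D.L &&
   Nat.beq (fld D.b (D.P true) D.L) (fld D.b (D.P false) D.L)))))))))))

/-- The eight combinations for one difference. -/
def chkD (D : Dat) (ex : List Nat) (e : Nat) : Bool :=
  chkE D.b D.L (2 ^ (D.b - 1) * rp D.b D.L) ((2 ^ (D.b - 1) - 1) * rp D.b D.L)
    (2 ^ (D.b * D.L) - 1) (D.P false) (D.P true) (D.E false) (D.E false + D.N * rp D.b D.L)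
    (D.E true) (D.E true + D.N * rp D.b D.L) ex e

/-- A run of differences with their lists of exceptions. -/
def loopD (D : Dat) (ll : List (List Nat)) (e : Nat) : Bool :=
  loopE D.b D.L (2 ^ (D.b - 1) * rp D.b D.L) ((2 ^ (D.b - 1) - 1) * rp D.b D.L)
    (2 ^ (D.b * D.L) - 1) (D.P false) (D.P true) (D.E false) (D.E false + D.N * rp D.b D.L)
    (D.E true) (D.E true + D.N * rp D.b D.L) ll e

/-- A run of differences without exceptions. -/
def loopM (D : Dat) (n e : Nat) : Bool :=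
  loopN D.b D.L (2 ^ (D.b - 1) * rp D.b D.L) ((2 ^ (D.b - 1) - 1) * rp D.b D.L)
    (2 ^ (D.b * D.L) - 1) (D.P false) (D.P true) (D.E false) (D.E false + D.N * rp D.b D.L)
    (D.E true) (D.E true + D.N * rp D.b D.L) n e

end Dat

end Makela
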