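/-!
# Packed arrays: definitions for kernel evaluation

A packed array with `b`-bit fields is a natural number; `fld b x i` is its `i`-th field.
This file imports nothing so that the files which evaluate the checks stay small.
-/

namespace Makela

/-- The `i`-th field of `x`. -/
def fld (b x i : Nat) : Nat := (x >>> (b * i)) % 2 ^ b

/-- The packed array of `n` ones. -/
def rp (b n : Nat) : Nat := (2 ^ (b * n) - 1) / (2 ^ b - 1)

/-- Concatenation of chunks of `k` bits. -/
def cat (k : Nat) : List Nat → Nat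
  | [] => 0
  | x :: l => x + (cat k l) <<< k

/-- Top bits of the fields `i` with `8 * i + c` in the list. -/
def msk (b c : Nat) : List Nat → Nat
  | [] => 0
  | x :: l => (if x % 8 = c then 1 <<< (b * (x / 8) + (b - 1)) else 0) ||| msk b c l

/-- The fields of `S` are compared with those of `E` and of `E'`. -/
def tst (T RH E E' S m : Nat) : Bool :=
  Nat.beq ((((S ^^^ E) + RH) &&& ((S ^^^ E') + RH)) &&& T) (T ^^^ m)

/-- The eight combinations for one difference `e`. -/
def chkE (b L T RH ones P0 P1 E0 E0' E1 E1' : Nat) (ex : List Nat) (e : Nat) : Bool :=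
  (fun A0 A1 C0 C1 : Nat =>
    (fun S00 S01 S10 S11 : Nat =>
      tst T RH E0 E0' S00 (msk b 0 ex) && tst T RH E1 E1' S00 (msk b 2 ex) &&
      tst T RH E0 E0' S10 (msk b 1 ex) && tst T RH E1 E1' S10 (msk b 3 ex) &&
      tst T RH E0 E0' S01 (msk b 4 ex) && tst T RH E1 E1' S01 (msk b 6 ex) &&
      tst T RH E0 E0' S11 (msk b 5 ex) && tst T RH E1 E1' S11 (msk b 7 ex))
    (A0 + C0) (A0 + C1) (A1 + C0) (A1 + C1))
  ((P0 >>> (b * (L - e))) &&& ones) ((P1 >>> (b * (L - e))) &&& ones)
  ((P0 >>> (b * (L + e))) &&& ones) ((P1 >>> (b * (L + e))) &&& ones)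

/-- A run of differences with their lists of exceptions. -/
def loopE (b L T RH ones P0 P1 E0 E0' E1 E1' : Nat) : List (List Nat) → Nat → Bool
  | [], _ => true
  | x :: l, e => chkE b L T RH ones P0 P1 E0 E0' E1 E1' x e &&
      loopE b L T RH ones P0 P1 E0 E0' E1 E1' l (e + 1)

/-- A run of differences without exceptions. -/
def loopN (b L T RH ones P0 P1 E0 E0' E1 E1' : Nat) : Nat → Nat → Bool
  | 0, _ => true
  | n + 1, e => chkE b L T RH ones P0 P1 E0 E0' E1 E1' [] e &&
      loopN b L T RH ones P0 P1 E0 E0' E1 E1' n (e + 1)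

end Makela
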