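import Mathlib
import Pool.Agent.Lib.MP_1f24c5_co.SimdDef

/-!
# Packed arrays: lemmas
-/

namespace Makela

lemma fld_eq (b x i : ℕ) : fld b x i = x / 2 ^ (b * i) % 2 ^ b := by
  unfold fld
  rw [Nat.shiftRight_eq_div_pow]

lemma fld_lt (b x i : ℕ) : fld b x i < 2 ^ b := by
  unfold fld
  exact Nat.mod_lt _ (by positivity)

lemma testBit_fld (b x i j : ℕ) :
    (fld b x i).testBit j = (decide (j < b) && x.testBit (b * i + j)) := by
  unfold fld
  rw [Nat.testBit_mod_two_pow, Nat.testBit_shiftRight]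

lemma fld_shift (b x k i : ℕ) : fld b (x >>> (b * k)) i = fld b x (k + i) := by
  apply Nat.eq_of_testBit_eq
  intro j
  rw [testBit_fld, testBit_fld, Nat.testBit_shiftRight]
  have : b * k + (b * i + j) = b * (k + i) + j := by ring
  rw [this]

lemma fld_and (b x y i : ℕ) : fld b (x &&& y) i = fld b x i &&& fld b y i := by
  apply Nat.eq_of_testBit_eq
  intro j
  rw [testBit_fld, Nat.testBit_and, Nat.testBit_and, testBit_fld, testBit_fld]
  cases decide (j < b) <;> simp

lemma fld_xor (b x y i : ℕ) : fld b (x ^^^ y) i = fld b x i ^^^ fld b y i := by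
  apply Nat.eq_of_testBit_eq
  intro j
  rw [testBit_fld, Nat.testBit_xor, Nat.testBit_xor, testBit_fld, testBit_fld]
  cases decide (j < b) <;> simp

lemma fld_zero (b i : ℕ) : fld b 0 i = 0 := by
  unfold fld
  simp

lemma fld_mod (b x n i : ℕ) :
    fld b (x % 2 ^ (b * n)) i = if i < n then fld b x i else 0 := by
  apply Nat.eq_of_testBit_eq
  intro j
  split_ifs with h
  · rw [testBit_fld, testBit_fld, Nat.testBit_mod_two_pow]
    by_cases hj : j < b
    · have : b * i + j < b * n := by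
        calc b * i + j < b * i + b := by omega
          _ = b * (i + 1) := by ring
          _ ≤ b * n := Nat.mul_le_mul_left b h
      simp [this]
    · simp [hj]
  · rw [testBit_fld, Nat.testBit_mod_two_pow]
    have : ¬ (b * i + j < b * n) := by
      have := Nat.mul_le_mul_left b (not_lt.1 h)
      omega
    simp [this]

lemma fld_ones (b x n i : ℕ) :
    fld b (x &&& (2 ^ (b * n) - 1)) i = if i < n then fld b x i else 0 := by
  rw [Nat.and_two_pow_sub_one_eq_mod, fld_mod]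

lemma fld_of_lt (b x n i : ℕ) (hx : x < 2 ^ (b * n)) (hi : n ≤ i) : fld b x i = 0 := by
  have h := fld_mod b x n i
  rw [Nat.mod_eq_of_lt hx, if_neg (by omega)] at h
  exact h

lemma add_mod_lt (b x y : ℕ) (h : ∀ i, fld b x i + fld b y i < 2 ^ b) (n : ℕ) :
    x % 2 ^ (b * n) + y % 2 ^ (b * n) < 2 ^ (b * n) := by
  induction n with
  | zero => simp [Nat.mod_one]
  | succ n ih =>
    have hb : 2 ^ (b * (n + 1)) = 2 ^ (b * n) * 2 ^ b := by
      rw [Nat.mul_succ, pow_add]
    rw [hb, Nat.mod_mul, Nat.mod_mul]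
    have h1 := h n
    rw [fld_eq, fld_eq] at h1
    have h2 : 2 ^ (b * n) * (x / 2 ^ (b * n) % 2 ^ b) + 2 ^ (b * n) * (y / 2 ^ (b * n) % 2 ^ b)
        ≤ 2 ^ (b * n) * (2 ^ b - 1) := by
      rw [← Nat.mul_add]
      exact Nat.mul_le_mul_left _ (by omega)
    have h3 : 2 ^ (b * n) * (2 ^ b - 1) + 2 ^ (b * n) = 2 ^ (b * n) * 2 ^ b := by
      have : 1 ≤ 2 ^ b := Nat.one_le_two_pow
      calc 2 ^ (b * n) * (2 ^ b - 1) + 2 ^ (b * n) = 2 ^ (b * n) * (2 ^ b - 1 + 1) := by ring
        _ = _ := by rw [Nat.sub_add_cancel this]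
    omega

lemma fld_add (b x y : ℕ) (h : ∀ i, fld b x i + fld b y i < 2 ^ b) (i : ℕ) :
    fld b (x + y) i = fld b x i + fld b y i := by
  have h1 := add_mod_lt b x y h i
  have h2 := h i
  rw [fld_eq, fld_eq] at h2
  rw [fld_eq, fld_eq, fld_eq]
  have h3 : (x + y) / 2 ^ (b * i) = x / 2 ^ (b * i) + y / 2 ^ (b * i) := by
    rw [Nat.add_div (by positivity), if_neg (by omega), Nat.add_zero]
  rw [h3, Nat.add_mod, Nat.mod_eq_of_lt h2]

lemma fld_mul (b c x : ℕ) (h : ∀ i, c * fld b x i < 2 ^ b) (i : ℕ) :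
    fld b (c * x) i = c * fld b x i := by
  induction c generalizing i with
  | zero => simp [fld_zero]
  | succ c ih =>
    have h0 : ∀ i, c * fld b x i < 2 ^ b := fun i => by
      have := h i
      nlinarith [Nat.zero_le (fld b x i)]
    have h1 : ∀ i, fld b (c * x) i + fld b x i < 2 ^ b := fun i => by
      rw [ih h0 i]
      have := h i
      nlinarith
    rw [Nat.add_mul, Nat.one_mul, fld_add b (c * x) x h1, ih h0 i]
    ring

lemma rp_succ (b n : ℕ) (hb : 1 ≤ b) : rp b (n + 1) = 1 + 2 ^ b * rp b n := by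
  unfold rp
  have h1 : 1 ≤ 2 ^ (b * n) := Nat.one_le_two_pow
  have h2 : 2 ≤ 2 ^ b := by
    calc 2 = 2 ^ 1 := rfl
      _ ≤ 2 ^ b := Nat.pow_le_pow_right (by norm_num) hb
  have hdvd : (2 ^ b - 1) ∣ 2 ^ (b * n) - 1 := by
    rw [pow_mul]
    simpa using Nat.sub_dvd_pow_sub_pow (2 ^ b) 1 n
  obtain ⟨k, hk⟩ := hdvd
  have h3 : 2 ^ (b * (n + 1)) - 1 = (2 ^ b - 1) * (1 + 2 ^ b * k) := by
    have h4 : 2 ^ (b * n) = (2 ^ b - 1) * k + 1 := by omega
    have h5 : 2 ^ (b * (n + 1)) = 2 ^ b * 2 ^ (b * n) := by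
      rw [Nat.mul_succ, pow_add, Nat.mul_comm]
    obtain ⟨a, ha⟩ : ∃ a, 2 ^ b = a + 1 := ⟨2 ^ b - 1, by omega⟩
    rw [h5, h4, ha]
    have : a + 1 - 1 = a := by omega
    rw [this]
    have h6 : (a + 1) * (a * k + 1) = a * (1 + (a + 1) * k) + 1 := by ring
    omega
  rw [h3, hk, Nat.mul_div_cancel_left _ (by omega), Nat.mul_div_cancel_left _ (by omega)]

lemma fld_succ_of (b c y i : ℕ) (hc : c < 2 ^ b) :
    fld b (c + 2 ^ b * y) i = if i = 0 then c else fld b y (i - 1) := by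
  rcases i with _ | i
  · rw [if_pos rfl, fld_eq, Nat.mul_zero, pow_zero, Nat.div_one, Nat.add_mul_mod_self_left,
      Nat.mod_eq_of_lt hc]
  · rw [if_neg (by omega), fld_eq, fld_eq]
    have h1 : b * (i + 1) = b + b * i := by ring
    rw [h1, pow_add, ← Nat.div_div_eq_div_mul, Nat.add_mul_div_left _ _ (by positivity),
      Nat.div_eq_of_lt hc, Nat.zero_add, Nat.add_sub_cancel]

lemma fld_rp (b n i : ℕ) (hb : 1 ≤ b) : fld b (rp b n) i = if i < n then 1 else 0 := by
  induction n generalizing i with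
  | zero => simp [rp, fld_zero]
  | succ n ih =>
    have h2 : 1 < 2 ^ b := Nat.one_lt_two_pow (by omega)
    rw [rp_succ b n hb, fld_succ_of b 1 _ i h2]
    rcases i with _ | i
    · simp
    · rw [if_neg (by omega), Nat.add_sub_cancel, ih i]
      by_cases h : i < n
      · rw [if_pos h, if_pos (by omega)]
      · rw [if_neg h, if_neg (by omega)]

lemma fld_rpc (b n c i : ℕ) (hb : 1 ≤ b) (hc : c < 2 ^ b) :
    fld b (c * rp b n) i = if i < n then c else 0 := by
  rw [fld_mul]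
  · rw [fld_rp b n i hb]
    split_ifs <;> simp
  · intro i
    rw [fld_rp b n i hb]
    split_ifs <;> simp [hc]

/-- The top bit of a field. -/
lemma top_iff (b x i : ℕ) (hb : 1 ≤ b) :
    x.testBit (b * i + (b - 1)) = decide (2 ^ (b - 1) ≤ fld b x i) := by
  have h1 := testBit_fld b x i (b - 1)
  have h2 : decide (b - 1 < b) = true := by
    rw [decide_eq_true_eq]
    omega
  rw [h2, Bool.true_and] at h1
  rw [← h1]
  have hlt := fld_lt b x i
  have hb2 : 2 ^ b = 2 * 2 ^ (b - 1) := by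
    conv_lhs => rw [show b = (b - 1) + 1 by omega]
    rw [pow_succ, Nat.mul_comm]
  by_cases h : 2 ^ (b - 1) ≤ fld b x i
  · rw [decide_eq_true h, Nat.testBit_eq_decide_div_mod_eq, decide_eq_true_eq]
    have : fld b x i / 2 ^ (b - 1) = 1 := by
      apply Nat.div_eq_of_lt_le
      · omega
      · omega
    rw [this]
  · rw [decide_eq_false h]
    exact Nat.testBit_lt_two_pow (by omega)

lemma xor_lt (a c k : ℕ) (ha : a < 2 ^ k) (hc : c < 2 ^ k) : a ^^^ c < 2 ^ k :=
  Nat.xor_lt_two_pow ha hc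

lemma xor_pos_ne (a c : ℕ) (h : 1 ≤ a ^^^ c) : a ≠ c := by
  rintro rfl
  simp at h

lemma fld_eq_of_eq (b x y : ℕ) (h : x = y) (i : ℕ) : fld b x i = fld b y i := by rw [h]

lemma ext_fld (b x y n : ℕ) (hb : 1 ≤ b) (hx : x < 2 ^ (b * n)) (hy : y < 2 ^ (b * n))
    (h : ∀ i < n, fld b x i = fld b y i) : x = y := by
  apply Nat.eq_of_testBit_eq
  intro j
  by_cases hj : j < b * n
  · have h1 : j / b < n := by
      rw [Nat.div_lt_iff_lt_mul (by omega)]
      rwa [Nat.mul_comm] at hj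
    have h2 := h (j / b) h1
    have h3 : b * (j / b) + j % b = j := Nat.div_add_mod j b
    have h4 : j % b < b := Nat.mod_lt _ (by omega)
    have h5 := congrArg (fun z => z.testBit (j % b)) h2
    simp only [testBit_fld, h3] at h5
    simpa [h4] using h5
  · have hle : 2 ^ (b * n) ≤ 2 ^ j := Nat.pow_le_pow_right (by norm_num) (by omega)
    rw [Nat.testBit_lt_two_pow (by omega), Nat.testBit_lt_two_pow (by omega)]

end Makela
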