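import Mathlib
import Pool.Agent.Lib.MP_1f24c5_co.Lane

/-!
# The packed check of one difference is sound
-/

namespace Makela

lemma msk_sound (b c : ℕ) (hb : 1 ≤ b) (l : List ℕ) (i : ℕ)
    (h : (msk b c l).testBit (b * i + (b - 1)) = true) : 8 * i + c ∈ l := by
  induction l with
  | nil => simp [msk] at h
  | cons x l ih =>
    unfold msk at h
    rw [Nat.testBit_or, Bool.or_eq_true] at h
    rcases h with h | h
    · split_ifs at h with hx
      · rw [Nat.one_shiftLeft, Nat.testBit_two_pow, decide_eq_true_eq] at h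
        have h1 : b * (x / 8) = b * i := by omega
        have h2 : x / 8 = i := Nat.eq_of_mul_eq_mul_left (by omega) h1
        have : 8 * i + c = x := by omega
        rw [this]
        exact List.mem_cons_self
      · simp at h
    · exact List.mem_cons_of_mem _ (ih h)

lemma tst_sound (b L N S E m : ℕ) (hb : 1 ≤ b) (hN2 : 2 * N ≤ 2 ^ (b - 1))
    (hS : ∀ i, fld b S i < 2 * N) (hE : ∀ i, fld b E i < N)
    (ht : tst (2 ^ (b - 1) * rp b L) ((2 ^ (b - 1) - 1) * rp b L) E (E + N * rp b L) S m = true)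
    (i : ℕ) (hi : i < L) (hm : m.testBit (b * i + (b - 1)) = false) :
    fld b S i ≠ fld b E i ∧ fld b S i ≠ fld b E i + N := by
  unfold tst at ht
  have ht := Nat.eq_of_beq_eq_true ht
  have hbb : 2 ^ b = 2 * 2 ^ (b - 1) := by
    conv_lhs => rw [show b = (b - 1) + 1 by omega]
    rw [pow_succ, Nat.mul_comm]
  have hp : 1 ≤ 2 ^ (b - 1) := Nat.one_le_two_pow
  set H := 2 ^ (b - 1) with hH
  have hNb : N < 2 ^ b := by omega
  have hE' : ∀ i, fld b (E + N * rp b L) i = fld b E i + (if i < L then N else 0) := by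
    intro i
    rw [fld_add]
    · rw [fld_rpc b L N i hb hNb]
    · intro i
      rw [fld_rpc b L N i hb hNb]
      have := hE i
      split_ifs <;> omega
  have hR : ∀ i, fld b ((H - 1) * rp b L) i = if i < L then H - 1 else 0 := by
    intro i
    rw [fld_rpc b L (H - 1) i hb (by omega)]
  have hT : fld b (H * rp b L) i = H := by
    rw [fld_rpc b L H i hb (by omega), if_pos hi]
  have key : ∀ E'' : ℕ, (∀ i, fld b E'' i < 2 * N) → (((S ^^^ E'') + (H - 1) * rp b L).testBit
      (b * i + (b - 1)) = true) → fld b S i ≠ fld b E'' i := by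
    intro E'' hE'' h
    rw [top_iff b _ i hb, decide_eq_true_eq, fld_add] at h
    · rw [hR i, if_pos hi, fld_xor] at h
      apply xor_pos_ne
      omega
    · intro j
      rw [fld_xor, hR j]
      have h1 : fld b S j ^^^ fld b E'' j < 2 ^ (b - 1) := by
        apply xor_lt
        · have := hS j
          omega
        · have := hE'' j
          omega
      split_ifs <;> omega
  have h1 := congrArg (fun z => z.testBit (b * i + (b - 1))) ht
  simp only [Nat.testBit_and, Nat.testBit_xor, hm, Bool.xor_false] at h1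
  have hTt : (H * rp b L).testBit (b * i + (b - 1)) = true := by
    rw [top_iff b _ i hb, hT, decide_eq_true_eq]
  rw [hTt, Bool.and_true, Bool.and_eq_true] at h1
  constructor
  · exact key E (fun i => by have := hE i; omega) h1.1
  · have := key (E + N * rp b L) (fun i => by
      rw [hE' i]
      have := hE i
      split_ifs <;> omega) h1.2
    rwa [hE' i, if_pos hi] at this

/-- The code of three bits. -/
def code (b₁ b₂ b₃ : Bool) : ℕ := b₁.toNat + 2 * b₂.toNat + 4 * b₃.toNat

/-- Packed arrays and the numbers they are compared with. -/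
structure Arr (b L N : ℕ) (P E : Bool → ℕ) (Φ : Bool → ℕ → ℤ) : Prop where
  hb : 1 ≤ b
  hN : 0 < N
  hN2 : 2 * N ≤ 2 ^ (b - 1)
  hP : ∀ β i, fld b (P β) i < N
  hE : ∀ β i, fld b (E β) i < N
  hPv : ∀ β i, i ≤ 3 * L → (N : ℤ) ∣ Φ β i - fld b (P β) i
  hEv : ∀ β i, i < L → (N : ℤ) ∣ 2 * Φ β (L + i) - fld b (E β) i

lemma chkE_sound (b L N : ℕ) (P E : Bool → ℕ) (Φ : Bool → ℕ → ℤ) (hA : Arr b L N P E Φ)
    (ex : List ℕ) (e : ℕ) (he : e ≤ L)
    (h : chkE b L (2 ^ (b - 1) * rp b L) ((2 ^ (b - 1) - 1) * rp b L) (2 ^ (b * L) - 1)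
      (P false) (P true) (E false) (E false + N * rp b L) (E true) (E true + N * rp b L)
      ex e = true) (i : ℕ) (hi : i < L) (b₁ b₂ b₃ : Bool) (hne : 8 * i + code b₁ b₂ b₃ ∉ ex) :
    ¬ (N : ℤ) ∣ Φ b₁ (L + i - e) + Φ b₃ (L + i + e) - 2 * Φ b₂ (L + i) := by
  obtain ⟨hb, hN, hN2, hP, hE, hPv, hEv⟩ := hA
  have hbb : 2 ^ b = 2 * 2 ^ (b - 1) := by
    conv_lhs => rw [show b = (b - 1) + 1 by omega]
    rw [pow_succ, Nat.mul_comm]
  have hSl : ∀ β₁ β₃ i, fld b (((P β₁ >>> (b * (L - e))) &&& (2 ^ (b * L) - 1))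
      + ((P β₃ >>> (b * (L + e))) &&& (2 ^ (b * L) - 1))) i
      = if i < L then fld b (P β₁) (L - e + i) + fld b (P β₃) (L + e + i) else 0 := by
    intro β₁ β₃ i
    rw [fld_add]
    · rw [fld_ones, fld_ones, fld_shift, fld_shift]
      split_ifs <;> rfl
    · intro j
      rw [fld_ones, fld_ones, fld_shift, fld_shift]
      have h1 := hP β₁ (L - e + j)
      have h2 := hP β₃ (L + e + j)
      split_ifs <;> omega
  have hSb : ∀ β₁ β₃ i, fld b (((P β₁ >>> (b * (L - e))) &&& (2 ^ (b * L) - 1))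
      + ((P β₃ >>> (b * (L + e))) &&& (2 ^ (b * L) - 1))) i < 2 * N := by
    intro β₁ β₃ i
    rw [hSl]
    have h1 := hP β₁ (L - e + i)
    have h2 := hP β₃ (L + e + i)
    split_ifs <;> omega
  have fin : ∀ β₁ β₂ β₃ : Bool, ∀ c : ℕ, 8 * i + c ∉ ex →
      tst (2 ^ (b - 1) * rp b L) ((2 ^ (b - 1) - 1) * rp b L) (E β₂) (E β₂ + N * rp b L)
        (((P β₁ >>> (b * (L - e))) &&& (2 ^ (b * L) - 1))
          + ((P β₃ >>> (b * (L + e))) &&& (2 ^ (b * L) - 1))) (msk b c ex) = true →
      ¬ (N : ℤ) ∣ Φ β₁ (L + i - e) + Φ β₃ (L + i + e) - 2 * Φ β₂ (L + i) := by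
    intro β₁ β₂ β₃ c hc ht hdvd
    have hm : (msk b c ex).testBit (b * i + (b - 1)) = false := by
      rw [Bool.eq_false_iff]
      intro h
      exact hc (msk_sound b c hb ex i h)
    have h1 := tst_sound b L N _ (E β₂) _ hb hN2 (hSb β₁ β₃) (hE β₂) ht i hi hm
    rw [hSl, if_pos hi] at h1
    have e1 : L - e + i = L + i - e := by omega
    have e2 : L + e + i = L + i + e := by omega
    rw [e1, e2] at h1
    obtain ⟨x1, h2⟩ := hPv β₁ (L + i - e) (by omega)
    obtain ⟨x2, h3⟩ := hPv β₃ (L + i + e) (by omega)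
    obtain ⟨x3, h4⟩ := hEv β₂ i hi
    obtain ⟨x, hx⟩ := hdvd
    have h5 := hP β₁ (L + i - e)
    have h6 := hP β₃ (L + i + e)
    have h7 := hE β₂ i
    set a := fld b (P β₁) (L + i - e)
    set c' := fld b (P β₃) (L + i + e)
    set d := fld b (E β₂) i
    have h8 : (a : ℤ) + c' - d = N * (x - x1 - x2 + x3) := by
      linear_combination hx - h2 - h3 + h4
    set y := x - x1 - x2 + x3
    have hNZ : (0 : ℤ) < N := by exact_mod_cast hN
    have h9 : -1 < y := by
      by_contra hcon
      have : (N : ℤ) * y ≤ N * (-1) := mul_le_mul_of_nonneg_left (by omega) hNZ.le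
      omega
    have h10 : y < 2 := by
      by_contra hcon
      have : (N : ℤ) * 2 ≤ N * y := mul_le_mul_of_nonneg_left (by omega) hNZ.le
      omega
    have h11 : y = 0 ∨ y = 1 := by omega
    rcases h11 with h11 | h11
    · rw [h11] at h8
      apply h1.1
      omega
    · rw [h11] at h8
      apply h1.2
      omega
  unfold chkE at h
  simp only [Bool.and_eq_true] at h
  obtain ⟨⟨⟨⟨⟨⟨⟨t0, t2⟩, t1⟩, t3⟩, t4⟩, t6⟩, t5⟩, t7⟩ := h
  cases b₁ <;> cases b₂ <;> cases b₃
  · exact fin false false false 0 hne t0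
  · exact fin false false true 4 hne t4
  · exact fin false true false 2 hne t2
  · exact fin false true true 6 hne t6
  · exact fin true false false 1 hne t1
  · exact fin true false true 5 hne t5
  · exact fin true true false 3 hne t3
  · exact fin true true true 7 hne t7

lemma loopE_sound (b L N : ℕ) (P E : Bool → ℕ) (ll : List (List ℕ)) (e₀ : ℕ)
    (h : loopE b L (2 ^ (b - 1) * rp b L) ((2 ^ (b - 1) - 1) * rp b L) (2 ^ (b * L) - 1)
      (P false) (P true) (E false) (E false + N * rp b L) (E true) (E true + N * rp b L)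
      ll e₀ = true) (k : ℕ) (hk : k < ll.length) :
    chkE b L (2 ^ (b - 1) * rp b L) ((2 ^ (b - 1) - 1) * rp b L) (2 ^ (b * L) - 1)
      (P false) (P true) (E false) (E false + N * rp b L) (E true) (E true + N * rp b L)
      (ll.getD k []) (e₀ + k) = true := by
  induction ll generalizing e₀ k with
  | nil => simp at hk
  | cons x l ih =>
    unfold loopE at h
    rw [Bool.and_eq_true] at h
    rcases k with _ | k
    · simpa using h.1
    · have h2 := ih (e₀ + 1) h.2 k (by simpa using hk)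
      have h3 : e₀ + 1 + k = e₀ + (k + 1) := by ring
      rw [h3] at h2
      simpa using h2

lemma loopN_sound (b L N : ℕ) (P E : Bool → ℕ) (n e₀ : ℕ)
    (h : loopN b L (2 ^ (b - 1) * rp b L) ((2 ^ (b - 1) - 1) * rp b L) (2 ^ (b * L) - 1)
      (P false) (P true) (E false) (E false + N * rp b L) (E true) (E true + N * rp b L)
      n e₀ = true) (k : ℕ) (hk : k < n) :
    chkE b L (2 ^ (b - 1) * rp b L) ((2 ^ (b - 1) - 1) * rp b L) (2 ^ (b * L) - 1)
      (P false) (P true) (E false) (E false + N * rp b L) (E true) (E true + N * rp b L)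
      [] (e₀ + k) = true := by
  induction n generalizing e₀ k with
  | zero => omega
  | succ n ih =>
    unfold loopN at h
    rw [Bool.and_eq_true] at h
    rcases k with _ | k
    · simpa using h.1
    · have h2 := ih (e₀ + 1) h.2 k (by omega)
      have h3 : e₀ + 1 + k = e₀ + (k + 1) := by ring
      rwa [h3] at h2

end Makela
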