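import Mathlib
import Pool.Agent.Lib.MP_1f24c5_co.Simd
import Pool.Agent.Lib.MP_1f24c5_co.ExDef
import Pool.Agent.Lib.MP_1f24c5_co.CodeGMain

/-!
# Soundness of the exact checks
-/

namespace Makela

lemma allB_iff (n : ℕ) (f : ℕ → Bool) : allB n f = true ↔ ∀ i < n, f i = true := by
  induction n with
  | zero => simp [allB]
  | succ n ih =>
    unfold allB
    rw [Bool.and_eq_true, ih]
    constructor
    · rintro ⟨h1, h2⟩ i hi
      rcases Nat.lt_succ_iff_lt_or_eq.1 hi with h | h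
      · exact h2 i h
      · rw [h]
        exact h1
    · intro h
      exact ⟨h n (Nat.lt_succ_self n), fun i hi => h i (Nat.lt_succ_of_lt hi)⟩

lemma two_pow_b (b : ℕ) (hb : 1 ≤ b) : 2 ^ b = 2 * 2 ^ (b - 1) := by
  conv_lhs => rw [show b = (b - 1) + 1 by omega]
  rw [pow_succ, Nat.mul_comm]

lemma bndB_sound (b n c x : ℕ) (hb : 1 ≤ b) (hc1 : 1 ≤ c) (hc2 : c ≤ 2 ^ (b - 1))
    (h : bndB b n c x = true) (i : ℕ) : fld b x i < c ∧ (n ≤ i → fld b x i = 0) := by
  unfold bndB at h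
  rw [Bool.and_eq_true, Bool.and_eq_true] at h
  obtain ⟨h1, h2, h3⟩ := h
  have h1' : x < 2 ^ (b * n) := by
    have := Nat.le_of_ble_eq_true h1
    omega
  have h2 := Nat.eq_of_beq_eq_true h2
  have h3 := Nat.eq_of_beq_eq_true h3
  have hbb := two_pow_b b hb
  have hp : 1 ≤ 2 ^ (b - 1) := Nat.one_le_two_pow
  set H := 2 ^ (b - 1) with hH
  have hz : ∀ i, n ≤ i → fld b x i = 0 := fun i hi => fld_of_lt b x n i h1' hi
  have hT : ∀ i < n, (H * rp b n).testBit (b * i + (b - 1)) = true := by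
    intro i hi
    rw [top_iff b _ i hb, fld_rpc b n H i hb (by omega), if_pos hi, decide_eq_true_eq]
  have hlow : ∀ i, fld b x i < H := by
    intro i
    by_cases hi : i < n
    · have h4 := congrArg (fun z => z.testBit (b * i + (b - 1))) h2
      simp only [Nat.testBit_and, hT i hi, Bool.and_true, Nat.zero_testBit] at h4
      rw [top_iff b _ i hb, decide_eq_false_iff_not] at h4
      omega
    · rw [hz i (by omega)]
      omega
  have hR : ∀ i, fld b ((H - c) * rp b n) i = if i < n then H - c else 0 := fun i =>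
    fld_rpc b n (H - c) i hb (by omega)
  refine ⟨?_, hz i⟩
  by_cases hi : i < n
  · have h4 := congrArg (fun z => z.testBit (b * i + (b - 1))) h3
    simp only [Nat.testBit_and, hT i hi, Bool.and_true, Nat.zero_testBit] at h4
    rw [top_iff b _ i hb, decide_eq_false_iff_not, fld_add] at h4
    · rw [hR i, if_pos hi] at h4
      omega
    · intro j
      rw [hR j]
      have := hlow j
      split_ifs <;> omega
  · rw [hz i (by omega)]
    omega

lemma le_of_and_eq (a b : ℕ) (h : b &&& a = b) : b ≤ a := by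
  rw [← h]
  exact Nat.and_le_right

namespace Dat

variable (D : Dat)

/-- The unpacked certificate of the constants. -/
structure C0 (D : Dat) : Prop where
  b3 : 3 ≤ D.b
  N1 : 1 ≤ D.N
  N2 : 2 * D.N ≤ 2 ^ (D.b - 1)
  hp : D.p < D.N
  hs : D.s < D.N
  L4 : 4 ≤ D.L
  c0 : D.c 0 = 0
  c12 : D.c 1 ≤ D.c 2
  c23 : D.c 2 ≤ D.c 3
  c3 : D.c 3 ≤ D.L
  c4 : D.c 4 = D.L
  hV : fld D.b (D.P true) D.L = fld D.b (D.P false) D.L

lemma cert0_sound (h : D.cert0 = true) : C0 D := by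
  unfold cert0 at h
  simp only [Bool.and_eq_true] at h
  obtain ⟨h1, h2, h3, h4, h5, h6, h7, h8, h9, h10, h11, h12⟩ := h
  refine ⟨Nat.le_of_ble_eq_true h1, Nat.le_of_ble_eq_true h2, Nat.le_of_ble_eq_true h3, ?_, ?_,
    Nat.le_of_ble_eq_true h6, Nat.eq_of_beq_eq_true h7, Nat.le_of_ble_eq_true h8,
    Nat.le_of_ble_eq_true h9, Nat.le_of_ble_eq_true h10, Nat.eq_of_beq_eq_true h11,
    Nat.eq_of_beq_eq_true h12⟩
  · have := Nat.le_of_ble_eq_true h4
    omega
  · have := Nat.le_of_ble_eq_true h5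
    omega

/-- The unpacked certificate of the letters and exact sums. -/
structure CX (D : Dat) (β : Bool) : Prop where
  mx : ∀ i, fld D.b (D.MX β) i < 2
  mx0 : ∀ i, D.L ≤ i → fld D.b (D.MX β) i = 0
  my : ∀ i, fld D.b (D.MY β) i ≤ fld D.b (D.MX β) i
  x0 : fld D.b (D.XX β) 0 = 0
  y0 : fld D.b (D.YY β) 0 = 0
  xs : ∀ i < D.L, fld D.b (D.XX β) (i + 1) = fld D.b (D.XX β) i + fld D.b (D.MX β) i
  ys : ∀ i < D.L, fld D.b (D.YY β) (i + 1) = fld D.b (D.YY β) i + fld D.b (D.MY β) i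

lemma succ_of_eq (b L x m : ℕ) (hb : 3 ≤ b) (hx : ∀ i, fld b x i < 2 ^ (b - 1))
    (hm : ∀ i, fld b m i < 2)
    (h : x >>> b = (x &&& (2 ^ (b * L) - 1)) + m) (i : ℕ) (hi : i < L) :
    fld b x (i + 1) = fld b x i + fld b m i := by
  have h1 : fld b (x >>> b) i = fld b ((x &&& (2 ^ (b * L) - 1)) + m) i := by rw [h]
  have hbb := two_pow_b b (by omega)
  have h4 : 2 ^ 2 ≤ 2 ^ (b - 1) := Nat.pow_le_pow_right (by norm_num) (by omega)
  have h2 : x >>> b = x >>> (b * 1) := by rw [Nat.mul_one]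
  rw [h2, fld_shift, fld_add] at h1
  · rw [fld_ones, if_pos hi, Nat.add_comm 1 i] at h1
    exact h1
  · intro j
    rw [fld_ones]
    have := hx j
    have := hm j
    split_ifs <;> omega

lemma certX_sound (hC : C0 D) (β : Bool) (h : D.certX β = true) : CX D β := by
  unfold certX at h
  simp only [Bool.and_eq_true] at h
  obtain ⟨h1, h2, h3, h4, h5, h6, h7, h8, h9⟩ := h
  have hb := hC.b3
  have hp : 2 ^ 2 ≤ 2 ^ (D.b - 1) := Nat.pow_le_pow_right (by norm_num) (by omega)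
  have h3 := Nat.eq_of_beq_eq_true h3
  have h8 := Nat.eq_of_beq_eq_true h8
  have h9 := Nat.eq_of_beq_eq_true h9
  have hmx : ∀ i, fld D.b (D.MX β) i < 2 := fun i =>
    (bndB_sound D.b D.L 2 _ (by omega) (by norm_num) (by omega) h1 i).1
  have hmy : ∀ i, fld D.b (D.MY β) i < 2 := fun i =>
    (bndB_sound D.b D.L 2 _ (by omega) (by norm_num) (by omega) h2 i).1
  have hxx : ∀ i, fld D.b (D.XX β) i < 2 ^ (D.b - 1) := fun i =>
    (bndB_sound D.b (D.L + 1) _ _ (by omega) (by omega) le_rfl h4 i).1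
  have hyy : ∀ i, fld D.b (D.YY β) i < 2 ^ (D.b - 1) := fun i =>
    (bndB_sound D.b (D.L + 1) _ _ (by omega) (by omega) le_rfl h5 i).1
  refine ⟨hmx, fun i hi => (bndB_sound D.b D.L 2 _ (by omega) (by norm_num) (by omega) h1 i).2 hi,
    ?_, Nat.eq_of_beq_eq_true h6, Nat.eq_of_beq_eq_true h7, ?_, ?_⟩
  · intro i
    apply le_of_and_eq
    rw [← fld_and, h3]
  · exact fun i hi => succ_of_eq D.b D.L _ _ hb hxx hmx h8 i hi
  · exact fun i hi => succ_of_eq D.b D.L _ _ hb hyy hmy h9 i hi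

lemma v_lt {β : Bool} (h : CX D β) (r : ℕ) : D.v β r < 3 := by
  unfold v
  have := h.mx r
  have := h.my r
  omega

lemma fX_v {β : Bool} (h : CX D β) (r : ℕ) : fX (D.v β r) = fld D.b (D.MX β) r := by
  unfold v fX
  have h1 := h.mx r
  have h2 := h.my r
  have h3 : fld D.b (D.MX β) r = 0 ∨ fld D.b (D.MX β) r = 1 := by omega
  rcases h3 with h3 | h3
  · rw [h3] at h2 ⊢
    rw [if_pos (by omega)]
    simp
  · rw [h3, if_neg (by omega)]
    simp

lemma fY_v {β : Bool} (h : CX D β) (r : ℕ) : fY (D.v β r) = fld D.b (D.MY β) r := by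
  unfold v fY
  have h1 := h.mx r
  have h2 := h.my r
  have h3 : fld D.b (D.MY β) r = 0 ∨ fld D.b (D.MY β) r = 1 := by omega
  rcases h3 with h3 | h3
  · rw [h3, if_neg (by omega)]
    simp
  · rw [h3, if_pos (by omega)]
    simp

lemma Pf_XX {β : Bool} (h : CX D β) (r : ℕ) (hr : r ≤ D.L) :
    Pf fX D.L D.v β r = fld D.b (D.XX β) r := by
  induction r with
  | zero => simp [Pf, h.x0]
  | succ r ih =>
    rw [Pf_succ, ih (by omega), h.xs r (by omega), Nat.mod_eq_of_lt (by omega : r < D.L),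
      fX_v D h]
    push_cast
    ring

lemma Pf_YY {β : Bool} (h : CX D β) (r : ℕ) (hr : r ≤ D.L) :
    Pf fY D.L D.v β r = fld D.b (D.YY β) r := by
  induction r with
  | zero => simp [Pf, h.y0]
  | succ r ih =>
    rw [Pf_succ, ih (by omega), h.ys r (by omega), Nat.mod_eq_of_lt (by omega : r < D.L),
      fY_v D h]
    push_cast
    ring

lemma seg_lt4 (r : ℕ) : D.seg r < 4 := by
  unfold seg
  split_ifs <;> omega

lemma seg_mono' (hC : C0 D) (r : ℕ) : D.seg r ≤ D.seg (r + 1) := by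
  have := hC.c12
  have := hC.c23
  unfold seg
  split_ifs <;> omega

lemma seg_iff (hC : C0 D) (q r : ℕ) (hq : q < 4) (hr : r < D.L) :
    D.seg r = q ↔ D.c q ≤ r ∧ r < D.c (q + 1) := by
  have h0 := hC.c0
  have h1 := hC.c12
  have h2 := hC.c23
  have h3 := hC.c3
  have h4 := hC.c4
  unfold seg
  interval_cases q
  · split_ifs <;> simp <;> omega
  · split_ifs <;> simp <;> omega
  · split_ifs <;> simp <;> omega
  · split_ifs <;> simp <;> omega

lemma c_le (hC : C0 D) (q : ℕ) (hq : q < 4) : D.c q ≤ D.c (q + 1) ∧ D.c (q + 1) ≤ D.L := by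
  have h0 := hC.c0
  have h1 := hC.c12
  have h2 := hC.c23
  have h3 := hC.c3
  have h4 := hC.c4
  interval_cases q
  · simp
    omega
  · simp
    omega
  · simp
    omega
  · simp
    omega

/-- The difference of the two words before place `r`. -/
def dd (f : ℕ → ℤ) (r : ℕ) : ℤ := Pf f D.L D.v true r - Pf f D.L D.v false r

lemma dd_sum (f : ℕ → ℤ) (r : ℕ) (hr : r ≤ D.L) :
    D.dd f r = ∑ k ∈ Finset.range r, (f (D.v true k) - f (D.v false k)) := by
  unfold dd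
  rw [Pf_low f D.L D.v true r hr, Pf_low f D.L D.v false r hr, Finset.sum_sub_distrib]

lemma Dq_dd (hC : C0 D) (f : ℕ → ℤ) (q r : ℕ) (hq : q < 4) (h1 : D.c q ≤ r)
    (h2 : r ≤ D.c (q + 1)) : Dq f D.v D.seg q r = D.dd f r - D.dd f (D.c q) := by
  have hcl := D.c_le hC q hq
  rw [D.dd_sum f r (by omega), D.dd_sum f (D.c q) (by omega),
    ← Finset.sum_range_add_sum_Ico _ h1, add_sub_cancel_left]
  unfold Dq
  rw [← Finset.sum_range_add_sum_Ico _ h1, Finset.sum_eq_zero (s := Finset.range (D.c q)),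
    zero_add]
  · apply Finset.sum_congr rfl
    intro k hk
    rw [Finset.mem_Ico] at hk
    rw [if_pos ((D.seg_iff hC q k hq (by omega)).2 ⟨by omega, by omega⟩)]
  · intro k hk
    rw [Finset.mem_range] at hk
    rw [if_neg]
    intro h
    have := (D.seg_iff hC q k hq (by omega)).1 h
    omega

lemma lam_dd (hC : C0 D) (f : ℕ → ℤ) (q : ℕ) (hq : q < 4) :
    lam f D.L D.v D.seg q = D.dd f (D.c (q + 1)) - D.dd f (D.c q) := by
  have hcl := D.c_le hC q hq
  rw [← D.Dq_dd hC f q (D.c (q + 1)) hq hcl.1 le_rfl]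
  unfold lam Dq
  rw [← Finset.sum_range_add_sum_Ico _ hcl.2]
  rw [Finset.sum_eq_zero (s := Finset.Ico (D.c (q + 1)) D.L), add_zero]
  intro k hk
  rw [Finset.mem_Ico] at hk
  rw [if_neg]
  intro h
  have := (D.seg_iff hC q k hq (by omega)).1 h
  omega

lemma Dq_seg (hC : C0 D) (f : ℕ → ℤ) (r : ℕ) (hr : r < D.L) :
    Dq f D.v D.seg (D.seg r) r = D.dd f r - D.dd f (D.c (D.seg r)) := by
  have h := (D.seg_iff hC (D.seg r) r (D.seg_lt4 r) hr).1 rfl
  exact D.Dq_dd hC f _ r (D.seg_lt4 r) h.1 h.2.le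

lemma gs_eq (t : ℕ) : gs D.L D.seg t = D.gseg t := rfl

/-- The packed exact value. -/
lemma xf_spec (hC : C0 D) (f : ℕ → ℤ) (Z : Bool → ℕ)
    (hZ : ∀ β r, r ≤ D.L → Pf f D.L D.v β r = fld D.b (Z β) r) (Q t : ℕ) (β : Bool) :
    (D.xf Z Q t β : ℤ) = Xf f D.L D.v D.seg Q t β + 2 * 2 ^ D.b := by
  have hL : 0 < D.L := by have := hC.L4; omega
  obtain ⟨k, ρ, hρ, rfl⟩ : ∃ k ρ, ρ < D.L ∧ t = k * D.L + ρ :=
    ⟨t / D.L, t % D.L, Nat.mod_lt _ hL, (Nat.div_add_mod' t D.L).symm⟩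
  have e1 : (k * D.L + ρ) % D.L = ρ := by
    rw [Nat.add_comm, Nat.add_mul_mod_self_right, Nat.mod_eq_of_lt hρ]
  have e2 : (k * D.L + ρ) / D.L = k := by
    rw [Nat.add_comm, Nat.add_mul_div_right _ _ hL, Nat.div_eq_of_lt hρ, Nat.zero_add]
  have hcl := D.c_le hC (D.seg ρ) (D.seg_lt4 ρ)
  unfold xf Xf gs
  simp only [e1, e2]
  rw [Pf_add f D.L D.v, D.Dq_seg hC f ρ hρ, D.lam_dd hC f _ (D.seg_lt4 ρ)]
  have hlt : ∀ x i, fld D.b x i < 2 ^ D.b := fun x i => fld_lt D.b x i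
  have hd : ∀ r ≤ D.L, D.dd f r = (fld D.b (Z true) r : ℤ) - fld D.b (Z false) r := by
    intro r hr
    unfold dd
    rw [hZ true r hr, hZ false r hr]
  rw [hd ρ hρ.le, hd _ (by omega), hd _ hcl.2, hZ false D.L le_rfl, hZ false ρ hρ.le]
  have hblt : Nat.blt (4 * k + D.seg ρ) Q = decide (4 * k + D.seg ρ < Q) := by
    rw [Bool.eq_iff_iff, decide_eq_true_eq, Nat.blt_eq]
  rw [hblt]
  cases β
  · simp [bz]
  · by_cases hq : 4 * k + D.seg ρ < Q
    · rw [decide_eq_true hq]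
      simp only [cond_true, if_pos hq, bz, if_true]
      have h1 := hlt (Z true) ρ
      have h2 := hlt (Z false) (D.c (D.seg ρ + 1))
      have h3 := hlt (Z false) ρ
      have h4 := hlt (Z true) (D.c (D.seg ρ + 1))
      have h5 : fld D.b (Z false) ρ + fld D.b (Z true) (D.c (D.seg ρ + 1))
        ≤ 2 * 2 ^ D.b + fld D.b (Z true) ρ + fld D.b (Z false) (D.c (D.seg ρ + 1)) := by omega
      push_cast [Nat.cast_sub h5]
      ring
    · rw [decide_eq_false hq]
      simp only [cond_true, cond_false, if_neg hq, bz, if_true]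
      have h1 := hlt (Z true) ρ
      have h2 := hlt (Z false) (D.c (D.seg ρ))
      have h3 := hlt (Z false) ρ
      have h4 := hlt (Z true) (D.c (D.seg ρ))
      have h5 : fld D.b (Z false) ρ + fld D.b (Z true) (D.c (D.seg ρ))
        ≤ 2 * 2 ^ D.b + fld D.b (Z true) ρ + fld D.b (Z false) (D.c (D.seg ρ)) := by omega
      push_cast [Nat.cast_sub h5]
      ring

lemma hqQ_sound (hC : C0 D) (hX : ∀ β, CX D β) (Q e r : ℕ) (b₁ b₂ b₃ : Bool)
    (h : D.hqQ Q e r b₁ b₂ b₃ = true) : HQ D.L D.v D.seg e r b₁ b₂ b₃ := by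
  unfold hqQ at h
  simp only [Bool.and_eq_true] at h
  obtain ⟨h1, h2, h3, h4, h5, h6, h7, h8⟩ := h
  have h7 := Nat.eq_of_beq_eq_true h7
  have h8 := Nat.eq_of_beq_eq_true h8
  refine ⟨Q, ⟨Nat.le_of_ble_eq_true h1, Nat.le_of_ble_eq_true h2⟩,
    ⟨Nat.le_of_ble_eq_true h3, Nat.le_of_ble_eq_true h4⟩,
    ⟨Nat.le_of_ble_eq_true h5, Nat.le_of_ble_eq_true h6⟩, ?_, ?_⟩
  · have g := D.xf_spec hC fX D.XX (fun β r hr => D.Pf_XX (hX β) r hr)
    have h9 : ((D.xf D.XX Q (D.L + r - e) b₁ + D.xf D.XX Q (D.L + r + e) b₃ : ℕ) : ℤ)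
      = ((2 * D.xf D.XX Q (D.L + r) b₂ : ℕ) : ℤ) := by rw [h7]
    push_cast at h9
    rw [g, g, g] at h9
    linear_combination h9
  · have g := D.xf_spec hC fY D.YY (fun β r hr => D.Pf_YY (hX β) r hr)
    have h9 : ((D.xf D.YY Q (D.L + r - e) b₁ + D.xf D.YY Q (D.L + r + e) b₃ : ℕ) : ℤ)
      = ((2 * D.xf D.YY Q (D.L + r) b₂ : ℕ) : ℤ) := by rw [h8]
    push_cast at h9
    rw [g, g, g] at h9
    linear_combination h9

lemma hqb_sound (hC : C0 D) (hX : ∀ β, CX D β) (e r : ℕ) (b₁ b₂ b₃ : Bool)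
    (h : D.hqb e r b₁ b₂ b₃ = true) : HQ D.L D.v D.seg e r b₁ b₂ b₃ := by
  unfold hqb at h
  rw [Bool.or_eq_true] at h
  rcases h with h | h
  · exact D.hqQ_sound hC hX _ e r b₁ b₂ b₃ h
  · exact D.hqQ_sound hC hX _ e r b₁ b₂ b₃ h

lemma mis_sound (k l t : ℕ) (β : Bool) (h : D.mis k l t β = true) :
    ¬ (t / D.L = k → D.mem (D.seg (t % D.L)) l = β) := by
  unfold mis at h
  rw [Bool.and_eq_true] at h
  intro h1
  have h2 := h1 (Nat.eq_of_beq_eq_true h.1)
  rw [h2] at h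
  simp at h

lemma unrk_sound (k e r : ℕ) (b₁ b₂ b₃ : Bool) (h : D.unrk k e r b₁ b₂ b₃ = true) :
    Unreal D.A D.L D.seg D.mem e r b₁ b₂ b₃ := by
  refine ⟨k, ?_⟩
  intro l hl hcon
  unfold unrk at h
  rw [allB_iff] at h
  have h1 := h l hl
  rw [Bool.or_eq_true, Bool.or_eq_true] at h1
  rcases h1 with h1 | h1 | h1
  · exact D.mis_sound k l _ _ h1 hcon.1
  · exact D.mis_sound k l _ _ h1 hcon.2.1
  · exact D.mis_sound k l _ _ h1 hcon.2.2

lemma unr_sound (e r : ℕ) (b₁ b₂ b₃ : Bool) (h : D.unr e r b₁ b₂ b₃ = true) :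
    Unreal D.A D.L D.seg D.mem e r b₁ b₂ b₃ := by
  unfold unr at h
  rw [Bool.or_eq_true, Bool.or_eq_true] at h
  rcases h with h | h | h
  · exact D.unrk_sound 0 e r b₁ b₂ b₃ h
  · exact D.unrk_sound 1 e r b₁ b₂ b₃ h
  · exact D.unrk_sound 2 e r b₁ b₂ b₃ h

lemma exOK_sound (hC : C0 D) (hX : ∀ β, CX D β) (e r : ℕ) (b₁ b₂ b₃ : Bool)
    (h : D.exOK e (8 * r + code b₁ b₂ b₃) = true) :
    HQ D.L D.v D.seg e r b₁ b₂ b₃ ∧ Unreal D.A D.L D.seg D.mem e r b₁ b₂ b₃ := by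
  have hc : code b₁ b₂ b₃ < 8 := by
    unfold code
    cases b₁ <;> cases b₂ <;> cases b₃ <;> decide
  have e1 : (8 * r + code b₁ b₂ b₃) / 8 = r := by omega
  have e2 : (8 * r + code b₁ b₂ b₃) % 8 = code b₁ b₂ b₃ := by omega
  unfold exOK at h
  simp only [e1, e2] at h
  have e3 : Nat.beq (code b₁ b₂ b₃ % 2) 1 = b₁ := by
    unfold code
    cases b₁ <;> cases b₂ <;> cases b₃ <;> decide
  have e4 : Nat.beq (code b₁ b₂ b₃ / 2 % 2) 1 = b₂ := by
    unfold code
    cases b₁ <;> cases b₂ <;> cases b₃ <;> decide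
  have e5 : Nat.beq (code b₁ b₂ b₃ / 4 % 2) 1 = b₃ := by
    unfold code
    cases b₁ <;> cases b₂ <;> cases b₃ <;> decide
  rw [e3, e4, e5, Bool.and_eq_true] at h
  exact ⟨D.hqb_sound hC hX e r b₁ b₂ b₃ h.1, D.unr_sound e r b₁ b₂ b₃ h.2⟩

lemma exAll_sound (e : ℕ) (l : List ℕ) (h : D.exAll e l = true) (x : ℕ) (hx : x ∈ l) :
    D.exOK e x = true := by
  induction l with
  | nil => simp at hx
  | cons y l ih =>
    unfold exAll at h
    rw [Bool.and_eq_true] at h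
    rcases List.mem_cons.1 hx with hx | hx
    · rw [hx]
      exact h.1
    · exact ih h.2 hx

lemma exLoop_sound (ll : List (List ℕ)) (e : ℕ) (h : D.exLoop ll e = true) (k : ℕ) :
    D.exAll (e + k) (ll.getD k []) = true := by
  induction ll generalizing e k with
  | nil => simp [exAll]
  | cons l ll ih =>
    unfold exLoop at h
    rw [Bool.and_eq_true] at h
    rcases k with _ | k
    · simpa using h.1
    · have h2 := ih (e + 1) h.2 k
      have h3 : e + 1 + k = e + (k + 1) := by ring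
      rw [h3] at h2
      simpa using h2

end Dat

end Makela
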