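import Mathlib
import Pool.Agent.Lib.MP_1f24c5_co.Exact

/-!
# The checks imply the hypotheses of the block code theorem
-/

namespace Makela

lemma fld_shl (b x n i : ℕ) : fld b (x <<< (b * n)) i = if n ≤ i then fld b x (i - n) else 0 := by
  apply Nat.eq_of_testBit_eq
  intro j
  rw [testBit_fld, Nat.testBit_shiftLeft]
  split_ifs with h
  · rw [testBit_fld]
    have h1 : b * i + j - b * n = b * (i - n) + j := by
      have : b * i = b * (i - n) + b * n := by
        rw [← Nat.mul_add, Nat.sub_add_cancel h]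
      omega
    have h2 : decide (b * i + j ≥ b * n) = true := by
      rw [decide_eq_true_eq]
      have := Nat.mul_le_mul_left b h
      omega
    rw [h1, h2, Bool.true_and]
  · by_cases hj : j < b
    · have h2 : decide (b * i + j ≥ b * n) = false := by
        rw [decide_eq_false_iff_not]
        have h3 := Nat.mul_le_mul_left b (by omega : i + 1 ≤ n)
        rw [Nat.mul_add, Nat.mul_one] at h3
        omega
      rw [h2]
      simp
    · simp [hj]

namespace Dat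

variable (D : Dat)

/-- The unpacked certificate of the sums modulo `N`. -/
structure CP (D : Dat) (β : Bool) : Prop where
  Plt : ∀ i, fld D.b (D.P β) i < D.N
  Elt : ∀ i, fld D.b (D.E β) i < D.N
  P0 : fld D.b (D.P β) 0 = 0
  Ps : ∀ i < 3 * D.L, ∃ K, fld D.b (D.P β) i + (D.p * fld D.b (D.MX β) (i % D.L)
    + D.s * fld D.b (D.MY β) (i % D.L)) = fld D.b (D.P β) (i + 1) + D.N * K
  Es : ∀ i < D.L, ∃ K, 2 * fld D.b (D.P β) (D.L + i) = fld D.b (D.E β) i + D.N * K

lemma fld_tri (hC : C0 D) (x : ℕ) (h2 : ∀ i, fld D.b x i < 2)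
    (h0 : ∀ i, D.L ≤ i → fld D.b x i = 0) (i : ℕ) :
    fld D.b (D.tri x) i = if i < 3 * D.L then fld D.b x (i % D.L) else 0 := by
  have hL := hC.L4
  have hb := hC.b3
  have hp : 2 ^ 3 ≤ 2 ^ D.b := Nat.pow_le_pow_right (by norm_num) (by omega)
  have hs : ∀ n i, fld D.b (x <<< (D.b * n)) i < 2 := by
    intro n i
    rw [fld_shl]
    split_ifs
    · exact h2 _
    · norm_num
  unfold tri
  rw [fld_add, fld_add, fld_shl, fld_shl]
  · by_cases a1 : i < D.L
    · rw [if_neg (by omega), if_neg (by omega), if_pos (by omega), Nat.mod_eq_of_lt a1,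
        Nat.add_zero]
    · rw [if_pos (by omega), h0 i (by omega)]
      by_cases a2 : i < 2 * D.L
      · rw [if_neg (by omega), if_pos (by omega)]
        have : i % D.L = i - D.L := by
          rw [Nat.mod_eq_sub_mod (by omega), Nat.mod_eq_of_lt (by omega)]
        rw [this]
        ring
      · rw [if_pos (by omega), h0 (i - D.L) (by omega)]
        by_cases a3 : i < 3 * D.L
        · rw [if_pos a3]
          have : i % D.L = i - 2 * D.L := by
            rw [Nat.mod_eq_sub_mod (by omega), Nat.mod_eq_sub_mod (by omega),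
              Nat.mod_eq_of_lt (by omega)]
            omega
          rw [this]
          ring
        · rw [if_neg a3, h0 _ (by omega)]
  · intro j
    have := h2 j
    have := hs D.L j
    omega
  · intro j
    have a1 := hs (2 * D.L) j
    have a2 : fld D.b (x + x <<< (D.b * D.L)) j = fld D.b x j + fld D.b (x <<< (D.b * D.L)) j := by
      apply fld_add
      intro j
      have := h2 j
      have := hs D.L j
      omega
    rw [a2]
    have := h2 j
    have := hs D.L j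
    omega

lemma certP_sound (hC : C0 D) (β : Bool) (hX : CX D β) (h : D.certP β = true) : CP D β := by
  unfold certP at h
  simp only [Bool.and_eq_true] at h
  obtain ⟨h1, h2, h3, ⟨h4, h5⟩, h6, h7⟩ := h
  have hb := hC.b3
  have hN1 := hC.N1
  have hN2 := hC.N2
  have hpN := hC.hp
  have hsN := hC.hs
  have hbb := two_pow_b D.b (by omega)
  have hp4 : 2 ^ 2 ≤ 2 ^ (D.b - 1) := Nat.pow_le_pow_right (by norm_num) (by omega)
  have h3 := Nat.eq_of_beq_eq_true h3
  have h5 := Nat.eq_of_beq_eq_true h5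
  have h7 := Nat.eq_of_beq_eq_true h7
  have hP : ∀ i, fld D.b (D.P β) i < D.N := fun i =>
    (bndB_sound D.b _ D.N _ (by omega) hN1 (by omega) h1 i).1
  have hE : ∀ i, fld D.b (D.E β) i < D.N := fun i =>
    (bndB_sound D.b _ D.N _ (by omega) hN1 (by omega) h2 i).1
  set K1 := ((D.P β &&& (2 ^ (D.b * (3 * D.L)) - 1)) + (D.p * D.tri (D.MX β)
    + D.s * D.tri (D.MY β)) - (D.P β >>> D.b)) / D.N with hK1
  set K2 := (2 * ((D.P β >>> (D.b * D.L)) &&& (2 ^ (D.b * D.L) - 1)) - (D.E β)) / D.N with hK2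
  have hk1 : ∀ i, fld D.b K1 i < 4 := fun i =>
    (bndB_sound D.b _ 4 _ (by omega) (by norm_num) (by omega) h4 i).1
  have hk2 : ∀ i, fld D.b K2 i < 4 := fun i =>
    (bndB_sound D.b _ 4 _ (by omega) (by norm_num) (by omega) h6 i).1
  have hNK : ∀ K, (∀ i, fld D.b K i < 4) → ∀ i, D.N * fld D.b K i ≤ 3 * D.N := by
    intro K hK i
    have := hK i
    have h9 : D.N * fld D.b K i ≤ D.N * 3 := Nat.mul_le_mul_left _ (by omega)
    omega
  have hNKf : ∀ K, (∀ i, fld D.b K i < 4) → ∀ i, fld D.b (D.N * K) i = D.N * fld D.b K i := by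
    intro K hK i
    apply fld_mul
    intro j
    have := hNK K hK j
    omega
  refine ⟨hP, hE, h3, ?_, ?_⟩
  · intro i hi
    refine ⟨fld D.b K1 i, ?_⟩
    have g := fld_eq_of_eq D.b _ _ h5 i
    have my2 : ∀ i, fld D.b (D.MY β) i < 2 := fun i => by
      have := hX.mx i
      have := hX.my i
      omega
    have my0 : ∀ i, D.L ≤ i → fld D.b (D.MY β) i = 0 := fun i hi => by
      have := hX.mx0 i hi
      have := hX.my i
      omega
    have tX := D.fld_tri hC (D.MX β) hX.mx hX.mx0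
    have tY := D.fld_tri hC (D.MY β) my2 my0
    have bX : ∀ j, D.p * fld D.b (D.tri (D.MX β)) j ≤ D.p := by
      intro j
      rw [tX]
      split_ifs
      · have := hX.mx (j % D.L)
        have h9 : D.p * fld D.b (D.MX β) (j % D.L) ≤ D.p * 1 := Nat.mul_le_mul_left _ (by omega)
        omega
      · omega
    have bY : ∀ j, D.s * fld D.b (D.tri (D.MY β)) j ≤ D.s := by
      intro j
      rw [tY]
      split_ifs
      · have := my2 (j % D.L)
        have h9 : D.s * fld D.b (D.MY β) (j % D.L) ≤ D.s * 1 := Nat.mul_le_mul_left _ (by omega)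
        omega
      · omega
    have fX' : ∀ j, fld D.b (D.p * D.tri (D.MX β)) j = D.p * fld D.b (D.tri (D.MX β)) j := by
      intro j
      apply fld_mul
      intro j
      have := bX j
      omega
    have fY' : ∀ j, fld D.b (D.s * D.tri (D.MY β)) j = D.s * fld D.b (D.tri (D.MY β)) j := by
      intro j
      apply fld_mul
      intro j
      have := bY j
      omega
    have fW : ∀ j, fld D.b (D.p * D.tri (D.MX β) + D.s * D.tri (D.MY β)) j
        = D.p * fld D.b (D.tri (D.MX β)) j + D.s * fld D.b (D.tri (D.MY β)) j := by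
      intro j
      rw [fld_add, fX', fY']
      intro j
      rw [fX', fY']
      have := bX j
      have := bY j
      omega
    have hsh : D.P β >>> D.b = D.P β >>> (D.b * 1) := by rw [Nat.mul_one]
    rw [fld_add, fld_ones, if_pos hi, fW, tX, tY, if_pos hi, if_pos hi, fld_add,
      hNKf K1 hk1, hsh, fld_shift, Nat.add_comm 1 i] at g
    · exact g
    · intro j
      rw [hNKf K1 hk1, hsh, fld_shift]
      have := hNK K1 hk1 j
      have := hP (1 + j)
      omega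
    · intro j
      rw [fld_ones, fW]
      have := bX j
      have := bY j
      have := hP j
      split_ifs <;> omega
  · intro i hi
    refine ⟨fld D.b K2 i, ?_⟩
    have g := fld_eq_of_eq D.b _ _ h7 i
    rw [fld_mul, fld_ones, if_pos hi, fld_shift, fld_add, hNKf K2 hk2] at g
    · exact g
    · intro j
      rw [hNKf K2 hk2]
      have := hNK K2 hk2 j
      have := hE j
      omega
    · intro j
      rw [fld_ones, fld_shift]
      have := hP (D.L + j)
      split_ifs <;> omega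

/-- The weighted sums. -/
def Ph (β : Bool) (i : ℕ) : ℤ := D.p * Pf fX D.L D.v β i + D.s * Pf fY D.L D.v β i

lemma Ph_succ {β : Bool} (h : CX D β) (i : ℕ) : D.Ph β (i + 1) = D.Ph β i
    + (D.p * fld D.b (D.MX β) (i % D.L) + D.s * fld D.b (D.MY β) (i % D.L) : ℕ) := by
  unfold Ph
  rw [Pf_succ, Pf_succ, D.fX_v h, D.fY_v h]
  push_cast
  ring

lemma Ph_dvd {β : Bool} (h : CX D β) (hP : CP D β) (i : ℕ) (hi : i ≤ 3 * D.L) :
    (D.N : ℤ) ∣ D.Ph β i - fld D.b (D.P β) i := by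
  induction i with
  | zero =>
    rw [hP.P0]
    simp [Ph, Pf]
  | succ i ih =>
    obtain ⟨x, hx⟩ := ih (by omega)
    obtain ⟨K, hK⟩ := hP.Ps i (by omega)
    refine ⟨x + K, ?_⟩
    rw [D.Ph_succ h]
    have hK' : ((fld D.b (D.P β) i + (D.p * fld D.b (D.MX β) (i % D.L)
      + D.s * fld D.b (D.MY β) (i % D.L)) : ℕ) : ℤ)
      = ((fld D.b (D.P β) (i + 1) + D.N * K : ℕ) : ℤ) := by rw [hK]
    push_cast at hK' ⊢
    linear_combination hx + hK'

/-- The arrays. -/
lemma arr (hC : C0 D) (hX : ∀ β, CX D β) (hP : ∀ β, CP D β) :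
    Arr D.b D.L D.N D.P D.E D.Ph := by
  have hb := hC.b3
  refine ⟨by omega, hC.N1, hC.N2, fun β => (hP β).Plt, fun β => (hP β).Elt,
    fun β i hi => D.Ph_dvd (hX β) (hP β) i hi, ?_⟩
  intro β i hi
  obtain ⟨x, hx⟩ := D.Ph_dvd (hX β) (hP β) (D.L + i) (by omega)
  obtain ⟨K, hK⟩ := (hP β).Es i hi
  refine ⟨2 * x + K, ?_⟩
  have hK' : ((2 * fld D.b (D.P β) (D.L + i) : ℕ) : ℤ)
      = ((fld D.b (D.E β) i + D.N * K : ℕ) : ℤ) := by rw [hK]
  push_cast at hK'
  linear_combination 2 * hx + hK'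

/-- The subgroup. -/
def Lam : AddSubgroup (ℤ × ℤ) where
  carrier := {z | (D.N : ℤ) ∣ D.p * z.1 + D.s * z.2}
  zero_mem' := by simp
  add_mem' := by
    intro a b ha hb
    change (D.N : ℤ) ∣ D.p * (a + b).1 + D.s * (a + b).2
    change (D.N : ℤ) ∣ D.p * a.1 + D.s * a.2 at ha
    change (D.N : ℤ) ∣ D.p * b.1 + D.s * b.2 at hb
    have h : (D.p : ℤ) * (a + b).1 + D.s * (a + b).2
        = (D.p * a.1 + D.s * a.2) + (D.p * b.1 + D.s * b.2) := by
      rw [Prod.fst_add, Prod.snd_add]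
      ring
    rw [h]
    exact dvd_add ha hb
  neg_mem' := by
    intro a ha
    change (D.N : ℤ) ∣ D.p * (-a).1 + D.s * (-a).2
    change (D.N : ℤ) ∣ D.p * a.1 + D.s * a.2 at ha
    have h : (D.p : ℤ) * (-a).1 + D.s * (-a).2 = -(D.p * a.1 + D.s * a.2) := by
      rw [Prod.fst_neg, Prod.snd_neg]
      ring
    rw [h]
    exact (dvd_neg).2 ha

lemma mem_Lam (x y : ℤ) : (x, y) ∈ D.Lam ↔ (D.N : ℤ) ∣ D.p * x + D.s * y := Iff.rfl

lemma Vf_mem (b₁ b₂ b₃ : Bool) (e r : ℕ) :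
    (Vf fX D.L D.v b₁ b₂ b₃ e r, Vf fY D.L D.v b₁ b₂ b₃ e r) ∈ D.Lam
      ↔ (D.N : ℤ) ∣ D.Ph b₁ (D.L + r - e) + D.Ph b₃ (D.L + r + e) - 2 * D.Ph b₂ (D.L + r) := by
  rw [mem_Lam]
  have : (D.p : ℤ) * Vf fX D.L D.v b₁ b₂ b₃ e r + D.s * Vf fY D.L D.v b₁ b₂ b₃ e r
      = D.Ph b₁ (D.L + r - e) + D.Ph b₃ (D.L + r + e) - 2 * D.Ph b₂ (D.L + r) := by
    unfold Vf Ph
    ring
  rw [this]

/-- The difference of the weighted sums. -/
lemma Ph_diff (hC : C0 D) (hX : ∀ β, CX D β) (hP : ∀ β, CP D β) (r : ℕ) (hr : r ≤ D.L) :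
    ∃ y : ℤ, D.Ph true (D.L + r) - D.Ph false (D.L + r)
      = (fld D.b (D.P true) r : ℤ) - fld D.b (D.P false) r + D.N * y := by
  have h1 : ∀ β, D.Ph β (D.L + r) = D.Ph β D.L + D.Ph β r := by
    intro β
    unfold Ph
    have e1 : D.L + r = 1 * D.L + r := by ring
    rw [e1, Pf_add fX D.L D.v, Pf_add fY D.L D.v]
    push_cast
    ring
  obtain ⟨x1, h2⟩ := D.Ph_dvd (hX true) (hP true) D.L (by omega)
  obtain ⟨x2, h3⟩ := D.Ph_dvd (hX false) (hP false) D.L (by omega)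
  obtain ⟨x3, h4⟩ := D.Ph_dvd (hX true) (hP true) r (by omega)
  obtain ⟨x4, h5⟩ := D.Ph_dvd (hX false) (hP false) r (by omega)
  have h6 := hC.hV
  refine ⟨x1 - x2 + x3 - x4, ?_⟩
  rw [h1, h1]
  rw [h6] at h2
  linear_combination h2 - h3 + h4 - h5

lemma Ph_bool (β : Bool) (t : ℕ) :
    D.Ph β t = D.Ph false t + bz β * (D.Ph true t - D.Ph false t) := by
  cases β <;> simp [bz]

lemma Xf_sync0 (f : ℕ → ℤ) (t : ℕ) (b : Bool) :
    Xf f D.L D.v D.seg (gs D.L D.seg t) t b = Pf f D.L D.v false t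
      + bz b * Dq f D.v D.seg (D.seg (t % D.L)) (t % D.L) := by
  unfold Xf
  rw [if_neg (lt_irrefl _)]
  ring

lemma Xf_sync1 (f : ℕ → ℤ) (t : ℕ) (b : Bool) :
    Xf f D.L D.v D.seg (gs D.L D.seg t + 1) t b = Pf f D.L D.v false t
      + bz b * (Dq f D.v D.seg (D.seg (t % D.L)) (t % D.L)
        - lam f D.L D.v D.seg (D.seg (t % D.L))) := by
  unfold Xf
  rw [if_pos (Nat.lt_succ_self _)]

lemma HQ_zero (r : ℕ) (b₁ b₂ b₃ : Bool)
    (h : ∀ f, f = fX ∨ f = fY → (bz b₁ + bz b₃ - 2 * bz b₂)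
      * Dq f D.v D.seg (D.seg ((D.L + r) % D.L)) ((D.L + r) % D.L) = 0) :
    HQ D.L D.v D.seg 0 r b₁ b₂ b₃ := by
  refine ⟨gs D.L D.seg (D.L + r), ⟨le_rfl, Nat.le_succ _⟩, ⟨le_rfl, Nat.le_succ _⟩,
    ⟨le_rfl, Nat.le_succ _⟩, ?_, ?_⟩
  · rw [Nat.sub_zero, Nat.add_zero, D.Xf_sync0, D.Xf_sync0, D.Xf_sync0]
    linear_combination h fX (Or.inl rfl)
  · rw [Nat.sub_zero, Nat.add_zero, D.Xf_sync0, D.Xf_sync0, D.Xf_sync0]
    linear_combination h fY (Or.inr rfl)

lemma HQ_full (r : ℕ) (b₁ b₂ b₃ : Bool)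
    (h : ∀ f, f = fX ∨ f = fY → Dq f D.v D.seg (D.seg ((D.L + r) % D.L)) ((D.L + r) % D.L)
      = lam f D.L D.v D.seg (D.seg ((D.L + r) % D.L))) :
    HQ D.L D.v D.seg 0 r b₁ b₂ b₃ := by
  refine ⟨gs D.L D.seg (D.L + r) + 1, ⟨Nat.le_succ _, le_rfl⟩, ⟨Nat.le_succ _, le_rfl⟩,
    ⟨Nat.le_succ _, le_rfl⟩, ?_, ?_⟩
  · simp only [Nat.sub_zero, Nat.add_zero]
    rw [D.Xf_sync1, D.Xf_sync1, D.Xf_sync1, h fX (Or.inl rfl)]
    ring
  · simp only [Nat.sub_zero, Nat.add_zero]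
    rw [D.Xf_sync1, D.Xf_sync1, D.Xf_sync1, h fY (Or.inr rfl)]
    ring

lemma chk0_sound (hC : C0 D) (hX : ∀ β, CX D β) (hP : ∀ β, CP D β) (r : ℕ) (hr : r < D.L)
    (h : D.chk0 r = true) (b₁ b₂ b₃ : Bool)
    (hmem : (Vf fX D.L D.v b₁ b₂ b₃ 0 r, Vf fY D.L D.v b₁ b₂ b₃ 0 r) ∈ D.Lam) :
    HQ D.L D.v D.seg 0 r b₁ b₂ b₃ := by
  have hL := hC.L4
  have hmodr : (D.L + r) % D.L = r := by rw [Nat.add_mod_left, Nat.mod_eq_of_lt hr]
  have hcl := D.c_le hC (D.seg r) (D.seg_lt4 r)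
  unfold chk0 at h
  simp only [Bool.or_eq_true, Bool.and_eq_true] at h
  have ddX : ∀ r ≤ D.L, D.dd fX r = (fld D.b (D.XX true) r : ℤ) - fld D.b (D.XX false) r := by
    intro r hr
    unfold dd
    rw [D.Pf_XX (hX true) r hr, D.Pf_XX (hX false) r hr]
  have ddY : ∀ r ≤ D.L, D.dd fY r = (fld D.b (D.YY true) r : ℤ) - fld D.b (D.YY false) r := by
    intro r hr
    unfold dd
    rw [D.Pf_YY (hX true) r hr, D.Pf_YY (hX false) r hr]
  rcases h with ⟨h1, h2⟩ | ⟨h1, h2⟩ | ⟨h1, h2⟩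
  · have h1 := Nat.eq_of_beq_eq_true h1
    have h2 := Nat.eq_of_beq_eq_true h2
    apply D.HQ_zero
    rintro f (rfl | rfl)
    · rw [hmodr, D.Dq_seg hC fX r hr, ddX r hr.le, ddX _ (by omega)]
      have : (fld D.b (D.XX true) r : ℤ) + fld D.b (D.XX false) (D.c (D.seg r))
        = fld D.b (D.XX false) r + fld D.b (D.XX true) (D.c (D.seg r)) := by exact_mod_cast h1
      linear_combination (bz b₁ + bz b₃ - 2 * bz b₂) * this
    · rw [hmodr, D.Dq_seg hC fY r hr, ddY r hr.le, ddY _ (by omega)]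
      have : (fld D.b (D.YY true) r : ℤ) + fld D.b (D.YY false) (D.c (D.seg r))
        = fld D.b (D.YY false) r + fld D.b (D.YY true) (D.c (D.seg r)) := by exact_mod_cast h2
      linear_combination (bz b₁ + bz b₃ - 2 * bz b₂) * this
  · have h1 := Nat.eq_of_beq_eq_true h1
    have h2 := Nat.eq_of_beq_eq_true h2
    apply D.HQ_full
    rintro f (rfl | rfl)
    · rw [hmodr, D.Dq_seg hC fX r hr, D.lam_dd hC fX _ (D.seg_lt4 r), ddX r hr.le,
        ddX _ (by omega), ddX _ hcl.2]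
      have : (fld D.b (D.XX true) r : ℤ) + fld D.b (D.XX false) (D.c (D.seg r + 1))
        = fld D.b (D.XX false) r + fld D.b (D.XX true) (D.c (D.seg r + 1)) := by
        exact_mod_cast h1
      linear_combination this
    · rw [hmodr, D.Dq_seg hC fY r hr, D.lam_dd hC fY _ (D.seg_lt4 r), ddY r hr.le,
        ddY _ (by omega), ddY _ hcl.2]
      have : (fld D.b (D.YY true) r : ℤ) + fld D.b (D.YY false) (D.c (D.seg r + 1))
        = fld D.b (D.YY false) r + fld D.b (D.YY true) (D.c (D.seg r + 1)) := by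
        exact_mod_cast h2
      linear_combination this
  · have h1 := Nat.le_of_ble_eq_true h1
    have h2 := Nat.le_of_ble_eq_true h2
    rw [D.Vf_mem, Nat.sub_zero, Nat.add_zero, D.Ph_bool b₁, D.Ph_bool b₂, D.Ph_bool b₃] at hmem
    obtain ⟨y, hy⟩ := D.Ph_diff hC hX hP r hr.le
    rw [hy] at hmem
    obtain ⟨z, hz⟩ := hmem
    have hPf := (hP false).Plt r
    set δ := fld D.b (D.P true) r + D.N - fld D.b (D.P false) r with hδ
    have hδz : (δ : ℤ) = fld D.b (D.P true) r + D.N - fld D.b (D.P false) r := by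
      rw [hδ, Nat.cast_sub (by omega)]
      push_cast
      ring
    set k := bz b₁ + bz b₃ - 2 * bz b₂ with hk
    have hkz : (D.N : ℤ) ∣ k * δ := by
      refine ⟨z - k * y + k, ?_⟩
      rw [hδz, hk]
      rw [hk] at *
      linear_combination hz
    have hkv : k = 0 ∨ k = -2 ∨ k = -1 ∨ k = 1 ∨ k = 2 := by
      rw [hk]
      cases b₁ <;> cases b₂ <;> cases b₃ <;> simp [bz]
    have hnat : ∀ m : ℕ, (D.N : ℤ) ∣ (m : ℤ) → m % D.N = 0 := by
      intro m hm
      exact Nat.mod_eq_zero_of_dvd (Int.natCast_dvd_natCast.1 hm)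
    rcases hkv with hkv | hkv | hkv | hkv | hkv
    · apply D.HQ_zero
      intro f _
      rw [← hk, hkv, zero_mul]
    · exfalso
      rw [hkv] at hkz
      have h3 := hnat (2 * δ) (by
        push_cast
        have := (dvd_neg (a := (D.N : ℤ))).2 hkz
        have e : -(-2 * (δ : ℤ)) = 2 * δ := by ring
        rwa [e] at this)
      omega
    · exfalso
      rw [hkv] at hkz
      have h3 := hnat δ (by
        have := (dvd_neg (a := (D.N : ℤ))).2 hkz
        have e : -(-1 * (δ : ℤ)) = δ := by ring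
        rwa [e] at this)
      omega
    · exfalso
      rw [hkv, one_mul] at hkz
      have h3 := hnat δ hkz
      omega
    · exfalso
      rw [hkv] at hkz
      have h3 := hnat (2 * δ) (by
        push_cast
        exact hkz)
      omega

lemma eqlet_sound (r : ℕ) (b₁ b₃ : Bool) (h : D.eqlet r b₁ b₃ = true) :
    EqLet D.L D.v D.seg r b₁ b₃ := by
  unfold eqlet at h
  intro b hb
  simp only at h
  rcases hl : D.lastB r with _ | _
  · rw [hl, cond_false] at h
    have h := Nat.eq_of_beq_eq_true h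
    unfold lastB at hl
    rw [Bool.or_eq_false_iff] at hl
    obtain ⟨h1, h2⟩ := hl
    have h1' : r + 1 ≠ D.L := Nat.ne_of_beq_eq_false h1
    have h2' : D.seg (r + 1) = D.seg r := by
      rw [Bool.not_eq_false'] at h2
      exact Nat.eq_of_beq_eq_true h2
    rcases hb with hb | hb | hb
    · rw [hb]
      exact h
    · exact absurd hb h1'
    · exact absurd h2' hb
  · rw [hl, cond_true, Bool.and_eq_true] at h
    have h1 := Nat.eq_of_beq_eq_true h.1
    have h2 := Nat.eq_of_beq_eq_true h.2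
    cases b
    · exact h1
    · exact h2

lemma wt_dvd (β : Bool) (r : ℕ) : ∃ y : ℤ,
    ((D.p * fld D.b (D.MX β) r + D.s * fld D.b (D.MY β) r : ℕ) : ℤ) = D.wt β r + D.N * y := by
  unfold wt
  refine ⟨((D.p * fld D.b (D.MX β) r + D.s * fld D.b (D.MY β) r) / D.N : ℕ), ?_⟩
  exact_mod_cast (Nat.mod_add_div _ _).symm

lemma chk1b_sound (hC : C0 D) (hX : ∀ β, CX D β) (hP : ∀ β, CP D β) (r : ℕ) (hr : r < D.L)
    (b₁ b₂ b₃ : Bool) (h : D.chk1b
      ((fld D.b (D.P true) r + D.N - fld D.b (D.P false) r) % D.N) r b₁ b₂ b₃ = true)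
    (hmem : (Vf fX D.L D.v b₁ b₂ b₃ 1 r, Vf fY D.L D.v b₁ b₂ b₃ 1 r) ∈ D.Lam) :
    EqLet D.L D.v D.seg r b₁ b₃ ∨ HQ D.L D.v D.seg 1 r b₁ b₂ b₃ := by
  have hL := hC.L4
  have hN := hC.N1
  unfold chk1b at h
  rw [Bool.or_eq_true, Bool.or_eq_true] at h
  rcases h with h | h | h
  · exfalso
    have h := Nat.le_of_ble_eq_true h
    rw [D.Vf_mem] at hmem
    have hPf := (hP false).Plt r
    set δ' := fld D.b (D.P true) r + D.N - fld D.b (D.P false) r with hδ'
    have hδz : (δ' : ℤ) = fld D.b (D.P true) r + D.N - fld D.b (D.P false) r := by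
      rw [hδ', Nat.cast_sub (by omega)]
      push_cast
      ring
    set δ := δ' % D.N with hδ
    have hδlt : δ < D.N := Nat.mod_lt _ (by omega)
    have hδm : (δ' : ℤ) = δ + D.N * ((δ' / D.N : ℕ) : ℤ) := by
      exact_mod_cast (Nat.mod_add_div δ' D.N).symm
    obtain ⟨y, hy⟩ := D.Ph_diff hC hX hP r hr.le
    have hmodr : (D.L + r) % D.L = r := by rw [Nat.add_mod_left, Nat.mod_eq_of_lt hr]
    have s3 := D.Ph_succ (hX b₃) (D.L + r)
    have s1 := D.Ph_succ (hX b₁) (D.L + r - 1)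
    rw [hmodr] at s3
    rw [show D.L + r - 1 + 1 = D.L + r by omega] at s1
    obtain ⟨y3, w3⟩ := D.wt_dvd b₃ r
    obtain ⟨y1, w1⟩ := D.wt_dvd b₁ ((D.L + r - 1) % D.L)
    rw [w3] at s3
    rw [w1] at s1
    have hw1lt : D.wt b₁ ((D.L + r - 1) % D.L) < D.N := by
      unfold wt
      exact Nat.mod_lt _ (by omega)
    obtain ⟨z, hz⟩ := hmem
    have B1 := D.Ph_bool b₁ (D.L + r)
    have B2 := D.Ph_bool b₂ (D.L + r)
    have B3 := D.Ph_bool b₃ (D.L + r)
    rw [hy] at B1 B2 B3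
    set w1' := D.wt b₁ ((D.L + r - 1) % D.L)
    set w3' := D.wt b₃ r
    have key : ∃ x : ℤ, ((cond b₁ δ 0 + cond b₃ δ 0 + cond b₂ (2 * (D.N - δ)) 0 + w3'
        + (D.N - w1') : ℕ) : ℤ) = D.N * x := by
      have c1 : ((cond b₁ δ 0 : ℕ) : ℤ) = bz b₁ * δ := by cases b₁ <;> simp [bz]
      have c3 : ((cond b₃ δ 0 : ℕ) : ℤ) = bz b₃ * δ := by cases b₃ <;> simp [bz]
      have c2 : ((cond b₂ (2 * (D.N - δ)) 0 : ℕ) : ℤ) = bz b₂ * (2 * (D.N - δ)) := by
        cases b₂
        · simp [bz]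
        · simp only [cond_true, bz, if_true]
          push_cast [Nat.cast_sub hδlt.le]
          ring
      refine ⟨z - (bz b₁ + bz b₃ - 2 * bz b₂) * (y - 1 + (δ' / D.N : ℕ))
        - y3 + y1 + 2 * bz b₂ + 1, ?_⟩
      push_cast [Nat.cast_sub hw1lt.le]
      rw [c1, c2, c3]
      have e0 : D.Ph b₁ (D.L + r - 1) = D.Ph b₁ (D.L + r) - (w1' + D.N * y1) := by
        linear_combination -s1
      rw [e0, s3, B1, B2, B3] at hz
      have e1 : (fld D.b (D.P true) r : ℤ) - fld D.b (D.P false) r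
        = δ + D.N * ((δ' / D.N : ℕ) : ℤ) - D.N := by
        rw [← hδm, hδz]
        ring
      rw [e1] at hz
      push_cast at hz ⊢
      linear_combination hz
    obtain ⟨x, hx⟩ := key
    have hd : (D.N : ℤ) ∣ ((cond b₁ δ 0 + cond b₃ δ 0 + cond b₂ (2 * (D.N - δ)) 0 + w3'
        + (D.N - w1') : ℕ) : ℤ) := ⟨x, hx⟩
    have := Nat.mod_eq_zero_of_dvd (Int.natCast_dvd_natCast.1 hd)
    omega
  · exact Or.inl (D.eqlet_sound r b₁ b₃ h)
  · exact Or.inr (D.hqb_sound hC hX 1 r b₁ b₂ b₃ h)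

lemma chk1_sound (hC : C0 D) (hX : ∀ β, CX D β) (hP : ∀ β, CP D β) (r : ℕ) (hr : r < D.L)
    (h : D.chk1 r = true) (b₁ b₂ b₃ : Bool)
    (hmem : (Vf fX D.L D.v b₁ b₂ b₃ 1 r, Vf fY D.L D.v b₁ b₂ b₃ 1 r) ∈ D.Lam) :
    EqLet D.L D.v D.seg r b₁ b₃ ∨ HQ D.L D.v D.seg 1 r b₁ b₂ b₃ := by
  unfold chk1 at h
  simp only [Bool.and_eq_true] at h
  obtain ⟨h0, h1, h2, h3, h4, h5, h6, h7⟩ := h
  have key : D.chk1b ((fld D.b (D.P true) r + D.N - fld D.b (D.P false) r) % D.N) r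
      b₁ b₂ b₃ = true := by
    cases b₁ <;> cases b₂ <;> cases b₃ <;> assumption
  exact D.chk1b_sound hC hX hP r hr b₁ b₂ b₃ key hmem

lemma loop01_sound (n r : ℕ) (h : D.loop01 n r = true) (k : ℕ) (hk : k < n) :
    D.chk0 (r + k) = true ∧ D.chk1 (r + k) = true := by
  induction n generalizing r k with
  | zero => omega
  | succ n ih =>
    unfold loop01 at h
    rw [Bool.and_eq_true, Bool.and_eq_true] at h
    rcases k with _ | k
    · exact h.1
    · have h2 := ih (r + 1) h.2 k (by omega)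
      have h3 : r + 1 + k = r + (k + 1) := by ring
      rwa [h3] at h2

lemma loopD_sound (ll : List (List ℕ)) (e : ℕ) (h : D.loopD ll e = true) (k : ℕ)
    (hk : k < ll.length) : D.chkD (ll.getD k []) (e + k) = true :=
  loopE_sound D.b D.L D.N D.P D.E ll e h k hk

lemma loopM_sound (n e : ℕ) (h : D.loopM n e = true) (k : ℕ)
    (hk : k < n) : D.chkD [] (e + k) = true :=
  loopN_sound D.b D.L D.N D.P D.E n e h k hk

/-- **All checks together.** -/
theorem check (h0 : D.cert0 = true) (hX : ∀ β, D.certX β = true) (hP : ∀ β, D.certP β = true)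
    (h01 : ∀ r < D.L, D.chk0 r = true ∧ D.chk1 r = true) (exc : ℕ → List ℕ)
    (hE : ∀ e, 2 ≤ e → 2 * e ≤ D.L → D.chkD (exc e) e = true)
    (hH : ∀ e, 2 ≤ e → 2 * e ≤ D.L → D.exAll e (exc e) = true) :
    CheckG D.A D.L D.v D.seg D.mem D.Lam := by
  have hC := D.cert0_sound h0
  have hX' : ∀ β, CX D β := fun β => D.certX_sound hC β (hX β)
  have hP' : ∀ β, CP D β := fun β => D.certP_sound hC β (hX' β) (hP β)
  refine ⟨fun r hr b₁ b₂ b₃ => D.chk0_sound hC hX' hP' r hr (h01 r hr).1 b₁ b₂ b₃,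
    fun r hr b₁ b₂ b₃ => D.chk1_sound hC hX' hP' r hr (h01 r hr).2 b₁ b₂ b₃, ?_⟩
  intro e he he2 r hr b₁ b₂ b₃ hmem
  by_cases hin : 8 * r + code b₁ b₂ b₃ ∈ exc e
  · exact D.exOK_sound hC hX' e r b₁ b₂ b₃ (D.exAll_sound e _ (hH e he he2) _ hin)
  · exfalso
    rw [D.Vf_mem] at hmem
    exact chkE_sound D.b D.L D.N D.P D.E D.Ph (D.arr hC hX' hP') (exc e) e (by omega)
      (hE e he he2) r hr b₁ b₂ b₃ hin hmem

end Dat

end Makela
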