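/-!
# The window program
-/

namespace Makela

/-- The classes of the four segments: `{1,2,3}`, `{4}`, `{0,1,2,4,5}`, `{2,4,5}`. -/
def memP (q c : Nat) : Bool :=
  Nat.beq (((cond (Nat.beq q 0) 14 (cond (Nat.beq q 1) 16 (cond (Nat.beq q 2) 55 52))) >>> c) % 2) 1

end Makela
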