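import Mathlib
import Pool.Agent.Lib.MP_1f24c5_co.ProgDef
import Pool.Agent.Lib.MP_1f24c5_co.Stage
import Pool.Agent.Lib.MP_1f24c5_co.ExactP

/-!
# The stage condition for a block code with the window program
-/

namespace Makela

open Pool.Agent.Lib.MP_1f24c5_co.Stage

/-- Second coordinates of the steps of the program. -/
def ayP (q : ℕ) : ℤ := if q = 0 then 1 else 0

lemma tabX : ∀ q < 5, ∀ c < 6, ∑ p ∈ Finset.range q, bz (memP p c) * 1 = d0 q c := by
  decide +kernel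

lemma tabY : ∀ q < 5, ∀ c < 6, ∑ p ∈ Finset.range q, bz (memP p c) * ayP p = d1 q c := by
  decide +kernel

lemma dspX (q c : ℕ) (hq : q ≤ 4) (hc : c < 6) : dsp memP (fun _ => 1) q c = d0 q c :=
  tabX q (by omega) c hc

lemma dspY (q c : ℕ) (hq : q ≤ 4) (hc : c < 6) : dsp memP ayP q c = d1 q c :=
  tabY q (by omega) c hc

lemma GfX (n : ℕ) : Gf u memP (fun _ => 1) n = S s0 n := by
  unfold Gf S
  apply Finset.sum_congr rfl
  intro i _
  rw [dspX 4 _ le_rfl (u_lt i), (d_four _ (u_lt i)).1]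

lemma GfY (n : ℕ) : Gf u memP ayP n = S s1 n := by
  unfold Gf S
  apply Finset.sum_congr rfl
  intro i _
  rw [dspY 4 _ le_rfl (u_lt i), (d_four _ (u_lt i)).2]

lemma stageP (q : ℕ) (hq : q ≤ 4) (n m : ℕ) (hm : 1 ≤ m) (hmn : m ≤ n) :
    ¬ (Zf u memP (fun _ => 1) q n m = 0 ∧ Zf u memP ayP q n m = 0) := by
  have h := stage_le q n m hq hm hmn
  unfold Zf
  rw [GfX, GfX, GfX, GfY, GfY, GfY, dspX q _ hq (u_lt _), dspX q _ hq (u_lt _),
    dspX q _ hq (u_lt _), dspY q _ hq (u_lt _), dspY q _ hq (u_lt _), dspY q _ hq (u_lt _)]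
  exact h

lemma dsp_lin (mem : ℕ → ℕ → Bool) (lx ax ay : ℕ → ℤ) (c d : ℤ)
    (h : ∀ q < 4, lx q = c * ax q + d * ay q) (q x : ℕ) (hq : q ≤ 4) :
    dsp mem lx q x = c * dsp mem ax q x + d * dsp mem ay q x := by
  unfold dsp
  rw [Finset.mul_sum, Finset.mul_sum, ← Finset.sum_add_distrib]
  apply Finset.sum_congr rfl
  intro p hp
  rw [Finset.mem_range] at hp
  rw [h p (by omega)]
  ring

lemma Gf_lin (w : ℕ → ℕ) (mem : ℕ → ℕ → Bool) (lx ax ay : ℕ → ℤ) (c d : ℤ)
    (h : ∀ q < 4, lx q = c * ax q + d * ay q) (n : ℕ) :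
    Gf w mem lx n = c * Gf w mem ax n + d * Gf w mem ay n := by
  unfold Gf
  rw [Finset.mul_sum, Finset.mul_sum, ← Finset.sum_add_distrib]
  apply Finset.sum_congr rfl
  intro i _
  exact dsp_lin mem lx ax ay c d h 4 _ le_rfl

lemma Zf_lin (w : ℕ → ℕ) (mem : ℕ → ℕ → Bool) (lx ax ay : ℕ → ℤ) (c d : ℤ)
    (h : ∀ q < 4, lx q = c * ax q + d * ay q) (q n m : ℕ) (hq : q ≤ 4) :
    Zf w mem lx q n m = c * Zf w mem ax q n m + d * Zf w mem ay q n m := by
  unfold Zf
  rw [Gf_lin w mem lx ax ay c d h, Gf_lin w mem lx ax ay c d h, Gf_lin w mem lx ax ay c d h,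
    dsp_lin mem lx ax ay c d h q _ hq, dsp_lin mem lx ax ay c d h q _ hq,
    dsp_lin mem lx ax ay c d h q _ hq]
  ring

/-- **The final assembly**: a block code over the base word `u` with the window program. -/
theorem Dat.final (D : Dat) (hmem : D.mem = memP) (hA : D.A = 6)
    (h0 : D.cert0 = true) (hX : ∀ β, D.certX β = true) (hP : ∀ β, D.certP β = true)
    (h01 : ∀ r < D.L, D.chk0 r = true ∧ D.chk1 r = true) (exc : ℕ → List ℕ)
    (hE : ∀ e, 2 ≤ e → 2 * e ≤ D.L → D.chkD (exc e) e = true)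
    (hH : ∀ e, 2 ≤ e → 2 * e ≤ D.L → D.exAll e (exc e) = true)
    (a b c d : ℤ) (hdet : a * d - b * c ≠ 0)
    (hlx : ∀ q < 4, (fld D.b (D.XX true) (D.c (q + 1)) : ℤ) - fld D.b (D.XX false) (D.c (q + 1))
      - (fld D.b (D.XX true) (D.c q) - fld D.b (D.XX false) (D.c q)) = a * 1 + b * ayP q)
    (hly : ∀ q < 4, (fld D.b (D.YY true) (D.c (q + 1)) : ℤ) - fld D.b (D.YY false) (D.c (q + 1))
      - (fld D.b (D.YY true) (D.c q) - fld D.b (D.YY false) (D.c q)) = c * 1 + d * ayP q)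
    (hN1 : (D.N : ℤ) ∣ D.p * a + D.s * c) (hN2 : (D.N : ℤ) ∣ D.p * b + D.s * d) :
    ∃ w : ℕ → Fin 3, ∀ i n : ℕ, 2 ≤ n →
      ¬ (∀ a : Fin 3,
          ((Finset.range n).filter (fun k => w (i + k) = a)).card =
          ((Finset.range n).filter (fun k => w (i + n + k) = a)).card) := by
  have hC := D.cert0_sound h0
  have hX' : ∀ β, D.CX β := fun β => D.certX_sound hC β (hX β)
  have lx : ∀ q < 4, lam fX D.L D.v D.seg q = a * 1 + b * ayP q := by
    intro q hq
    have hcl := D.c_le hC q hq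
    rw [D.lam_dd hC fX q hq, ← hlx q hq]
    unfold Dat.dd
    rw [D.Pf_XX (hX' _) _ hcl.2, D.Pf_XX (hX' _) _ hcl.2, D.Pf_XX (hX' _) _ (by omega),
      D.Pf_XX (hX' _) _ (by omega)]
  have ly : ∀ q < 4, lam fY D.L D.v D.seg q = c * 1 + d * ayP q := by
    intro q hq
    have hcl := D.c_le hC q hq
    rw [D.lam_dd hC fY q hq, ← hly q hq]
    unfold Dat.dd
    rw [D.Pf_YY (hX' _) _ hcl.2, D.Pf_YY (hX' _) _ hcl.2, D.Pf_YY (hX' _) _ (by omega),
      D.Pf_YY (hX' _) _ (by omega)]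
  have K := D.check h0 hX hP h01 exc hE hH
  have C : CodeG u D.A D.L D.v D.seg D.mem D.Lam := by
    refine ⟨?_, hC.L4, fun r _ => D.seg_lt4 r, fun r _ => D.seg_mono' hC r, ?_, ?_⟩
    · rw [hA]
      exact u_lt
    · intro q hq
      rw [lx q hq, ly q hq, D.mem_Lam]
      have e : (D.p : ℤ) * (a * 1 + b * ayP q) + D.s * (c * 1 + d * ayP q)
          = (D.p * a + D.s * c) + (D.p * b + D.s * d) * ayP q := by ring
      rw [e]
      exact dvd_add hN1 (Dvd.dvd.mul_right hN2 _)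
    · intro q hq n m hm hmn
      rw [hmem, Zf_lin u memP _ (fun _ => 1) ayP a b lx q n m (by omega),
        Zf_lin u memP _ (fun _ => 1) ayP c d ly q n m (by omega)]
      rintro ⟨h1, h2⟩
      apply stageP q (by omega) n m hm hmn
      set x := Zf u memP (fun _ => 1) q n m
      set y := Zf u memP ayP q n m
      have h3 : (a * d - b * c) * x = 0 := by linear_combination d * h1 - b * h2
      have h4 : (a * d - b * c) * y = 0 := by linear_combination a * h2 - c * h1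
      exact ⟨(mul_eq_zero.1 h3).resolve_left hdet, (mul_eq_zero.1 h4).resolve_left hdet⟩
  exact C.main K (fun β r => D.v_lt (hX' β) r)

end Makela
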